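import Pool.Agent.Q191.Beam.Final

/-! Counting even one-troughed travelling waves: the equations at the end of the trough. -/

set_option autoImplicit false

open Filter Topology Set

namespace Q191.Beam

theorem dcos (ω s : ℝ) : HasDerivAt (fun s => Real.cos (ω * s)) (-Real.sin (ω * s) * ω) s := by
  have := ((hasDerivAt_id s).const_mul ω).cos
  simpa using this

theorem dsin (ω s : ℝ) : HasDerivAt (fun s => Real.sin (ω * s)) (Real.cos (ω * s) * ω) s := by
  have := ((hasDerivAt_id s).const_mul ω).sin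
  simpa using this

/-- even solutions of the harmonic oscillator -/
theorem harm {ω T : ℝ} (hω : ω ≠ 0) {p q : ℝ → ℝ}
    (hp : ∀ t, 0 ≤ t → t ≤ T → HasDerivAt p (q t) t)
    (hq : ∀ t, 0 ≤ t → t ≤ T → HasDerivAt q (-ω ^ 2 * p t) t) (h0 : q 0 = 0) :
    ∀ t, 0 ≤ t → t ≤ T → p t = p 0 * Real.cos (ω * t) ∧
      q t = -ω * p 0 * Real.sin (ω * t) := by
  intro t ht0 htT
  have e1 : ω * p 0 * Real.cos (ω * 0) - q 0 * Real.sin (ω * 0) =
      ω * p t * Real.cos (ω * t) - q t * Real.sin (ω * t) := by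
    refine const_of (f := fun t => ω * p t * Real.cos (ω * t) - q t * Real.sin (ω * t)) ht0 ?_
    intro s h1 h2
    have := (((hp s h1 (h2.trans htT)).const_mul ω).mul (dcos ω s)).sub
      ((hq s h1 (h2.trans htT)).mul (dsin ω s))
    refine this.congr_deriv ?_
    ring
  have e2 : ω * p 0 * Real.sin (ω * 0) + q 0 * Real.cos (ω * 0) =
      ω * p t * Real.sin (ω * t) + q t * Real.cos (ω * t) := by
    refine const_of (f := fun t => ω * p t * Real.sin (ω * t) + q t * Real.cos (ω * t)) ht0 ?_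
    intro s h1 h2
    have := (((hp s h1 (h2.trans htT)).const_mul ω).mul (dsin ω s)).add
      ((hq s h1 (h2.trans htT)).mul (dcos ω s))
    refine this.congr_deriv ?_
    ring
  rw [h0, mul_zero, Real.cos_zero, Real.sin_zero] at e1 e2
  have e3 := Real.sin_sq_add_cos_sq (ω * t)
  constructor
  · have : ω * p t = ω * (p 0 * Real.cos (ω * t)) := by
      linear_combination (-ω * p t) * e3 - Real.cos (ω * t) * e1 - Real.sin (ω * t) * e2
    exact mul_left_cancel₀ hω this
  · linear_combination (-q t) * e3 + Real.sin (ω * t) * e1 - Real.cos (ω * t) * e2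

/-- solutions of the damped oscillator `z'' + 2 a z' + z = 0` -/
theorem damp {a b T : ℝ} (hb : 0 < b) (hab : a ^ 2 + b ^ 2 = 1) {z0 z1 : ℝ → ℝ}
    (h0 : ∀ t, T ≤ t → HasDerivAt z0 (z1 t) t)
    (h1 : ∀ t, T ≤ t → HasDerivAt z1 (-(2 * a) * z1 t - z0 t) t) (u : ℝ) (hu : 0 ≤ u) :
    z0 (T + u) = Real.exp (-(a * u)) * (z0 T * Real.cos (b * u) +
      (z1 T + a * z0 T) / b * Real.sin (b * u)) := by
  obtain ⟨y0, hy0⟩ : ∃ y0 : ℝ → ℝ, ∀ t, y0 t = z0 (T + t) := ⟨_, fun _ => rfl⟩
  obtain ⟨y1, hy1⟩ : ∃ y1 : ℝ → ℝ, ∀ t, y1 t = z1 (T + t) := ⟨_, fun _ => rfl⟩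
  have sh : ∀ t : ℝ, HasDerivAt (fun s => T + s) 1 t := fun t => by
    simpa using (hasDerivAt_id t).const_add T
  have k0 : ∀ t, 0 ≤ t → HasDerivAt y0 (y1 t) t := by
    intro t ht
    rw [show y0 = fun t => z0 (T + t) from funext hy0, hy1]
    exact ((h0 (T + t) (by linarith)).comp t (sh t)).congr_deriv (mul_one _)
  have k1 : ∀ t, 0 ≤ t → HasDerivAt y1 (-(2 * a) * y1 t - y0 t) t := by
    intro t ht
    rw [show y1 = fun t => z1 (T + t) from funext hy1, hy0]
    exact ((h1 (T + t) (by linarith)).comp t (sh t)).congr_deriv (mul_one _)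
  have de : ∀ t : ℝ, HasDerivAt (fun t : ℝ => Real.exp (a * t)) (Real.exp (a * t) * a) t := by
    intro t
    have := ((hasDerivAt_id t).const_mul a).exp
    simpa using this
  have e1 : Real.exp (a * 0) * (b * y0 0 * Real.cos (b * 0) -
      (y1 0 + a * y0 0) * Real.sin (b * 0)) = Real.exp (a * u) * (b * y0 u * Real.cos (b * u) -
      (y1 u + a * y0 u) * Real.sin (b * u)) := by
    refine const_of (f := fun u => Real.exp (a * u) * (b * y0 u * Real.cos (b * u) -
      (y1 u + a * y0 u) * Real.sin (b * u))) hu ?_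
    intro s h1 h2
    have := (de s).mul ((((k0 s h1).const_mul b).mul (dcos b s)).sub
      (((k1 s h1).add ((k0 s h1).const_mul a)).mul (dsin b s)))
    refine this.congr_deriv ?_
    simp only [Pi.add_apply, Pi.sub_apply, Pi.mul_apply]
    linear_combination (-Real.exp (a * s) * y0 s * Real.sin (b * s)) * hab
  have e2 : Real.exp (a * 0) * (b * y0 0 * Real.sin (b * 0) +
      (y1 0 + a * y0 0) * Real.cos (b * 0)) = Real.exp (a * u) * (b * y0 u * Real.sin (b * u) +
      (y1 u + a * y0 u) * Real.cos (b * u)) := by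
    refine const_of (f := fun u => Real.exp (a * u) * (b * y0 u * Real.sin (b * u) +
      (y1 u + a * y0 u) * Real.cos (b * u))) hu ?_
    intro s h1 h2
    have := (de s).mul ((((k0 s h1).const_mul b).mul (dsin b s)).add
      (((k1 s h1).add ((k0 s h1).const_mul a)).mul (dcos b s)))
    refine this.congr_deriv ?_
    simp only [Pi.add_apply, Pi.mul_apply]
    linear_combination (Real.exp (a * s) * y0 s * Real.cos (b * s)) * hab
  simp only [mul_zero, Real.exp_zero, Real.cos_zero, Real.sin_zero, mul_one, one_mul, sub_zero,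
    zero_add] at e1 e2
  have e3 := Real.sin_sq_add_cos_sq (b * u)
  have e4 : Real.exp (-(a * u)) * Real.exp (a * u) = 1 := by
    rw [← Real.exp_add, neg_add_cancel, Real.exp_zero]
  have e5 : z0 T = y0 0 := by rw [hy0, add_zero]
  have e6 : z1 T = y1 0 := by rw [hy1, add_zero]
  rw [← hy0, e5, e6]
  have hb' : b ≠ 0 := hb.ne'
  have key : Real.exp (a * u) * (b * y0 u) =
      b * y0 0 * Real.cos (b * u) + (y1 0 + a * y0 0) * Real.sin (b * u) := by
    linear_combination (-Real.exp (a * u) * b * y0 u) * e3 - Real.cos (b * u) * e1 -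
      Real.sin (b * u) * e2
  have key2 : b * y0 u = Real.exp (-(a * u)) *
      (b * y0 0 * Real.cos (b * u) + (y1 0 + a * y0 0) * Real.sin (b * u)) := by
    linear_combination (-(b * y0 u)) * e4 + Real.exp (-(a * u)) * key
  apply mul_left_cancel₀ hb'
  rw [key2]
  field_simp

/-- the shape of an even continuous function that takes the value `-1` exactly twice -/
theorem two_points {z : ℝ → ℝ} (hc : Continuous z) (he : ∀ t, z (-t) = z t)
    (h2 : {t | z t = -1}.encard = 2) (l : Tendsto z atTop (𝓝 0)) :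
    ∃ T, 0 < T ∧ z T = -1 ∧ (∀ t, T < t → -1 < z t) ∧
      ((∀ t, -T < t → t < T → z t < -1) ∨ (∀ t, -T < t → t < T → -1 < z t)) := by
  obtain ⟨x, y, hxy, hs⟩ := Set.encard_eq_two.1 h2
  have mem : ∀ t, z t = -1 ↔ t = x ∨ t = y := by
    intro t
    have : t ∈ {t | z t = -1} ↔ t ∈ ({x, y} : Set ℝ) := by rw [hs]
    simpa using this
  have hx : z x = -1 := (mem x).2 (Or.inl rfl)
  have hy : z y = -1 := (mem y).2 (Or.inr rfl)
  have hnx : -x = y := by
    rcases (mem (-x)).1 (by rw [he]; exact hx) with h | h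
    · have x0 : x = 0 := by linarith
      rcases (mem (-y)).1 (by rw [he]; exact hy) with h' | h'
      · exact absurd (by rw [x0] at h' ⊢; linarith) hxy
      · exact absurd (by rw [x0]; linarith) hxy
    · exact h
  have x0 : x ≠ 0 := by
    rintro rfl
    exact hxy (by linarith)
  obtain ⟨T, hT, hTm⟩ : ∃ T : ℝ, 0 < T ∧ ∀ t, z t = -1 ↔ t = T ∨ t = -T := by
    rcases lt_or_gt_of_ne x0 with h | h
    · refine ⟨-x, by linarith, fun t => ?_⟩
      rw [mem t, ← hnx, neg_neg]
      exact or_comm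
    · refine ⟨x, h, fun t => ?_⟩
      rw [mem t, ← hnx]
  have ivt : ∀ r t, z r < -1 → -1 < z t → ∃ m, (min r t < m ∧ m < max r t) ∧ z m = -1 := by
    intro r t hr ht
    have := intermediate_value_uIcc (f := z) (a := r) (b := t) hc.continuousOn
    have hmem : (-1 : ℝ) ∈ uIcc (z r) (z t) := by
      rw [Set.mem_uIcc]; exact Or.inl ⟨hr.le, ht.le⟩
    obtain ⟨m, hm, hm1⟩ := this hmem
    have m1 : m ≠ r := fun h => by rw [h] at hm1; linarith
    have m2 : m ≠ t := fun h => by rw [h] at hm1; linarith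
    rw [Set.uIcc, mem_Icc] at hm
    refine ⟨m, ⟨lt_of_le_of_ne hm.1 ?_, lt_of_le_of_ne hm.2 ?_⟩, hm1⟩
    · intro h
      rcases min_choice r t with h' | h' <;> rw [h'] at h
      · exact m1 h.symm
      · exact m2 h.symm
    · intro h
      rcases max_choice r t with h' | h' <;> rw [h'] at h
      · exact m1 h
      · exact m2 h
  refine ⟨T, hT, (hTm T).2 (Or.inl rfl), ?_, ?_⟩
  · intro t ht
    by_contra hcon
    push Not at hcon
    have hlt : z t < -1 := lt_of_le_of_ne hcon (fun h => by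
      rcases (hTm t).1 h with h | h <;> linarith)
    have hev : ∀ᶠ r in atTop, -1 < z r := l.eventually (lt_mem_nhds (by norm_num))
    obtain ⟨r, hr1, hr2⟩ := (hev.and (eventually_gt_atTop t)).exists
    obtain ⟨m, ⟨hm1, hm2⟩, hm3⟩ := ivt t r hlt hr1
    rw [min_eq_left hr2.le] at hm1
    rcases (hTm m).1 hm3 with h | h <;> linarith
  · by_contra hcon
    push Not at hcon
    obtain ⟨⟨r, r1, r2, r3⟩, ⟨t, t1, t2, t3⟩⟩ := hcon
    have r4 : -1 < z r := lt_of_le_of_ne r3 (fun h => by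
      rcases (hTm r).1 h.symm with h | h <;> linarith)
    have t4 : z t < -1 := lt_of_le_of_ne t3 (fun h => by
      rcases (hTm t).1 h with h | h <;> linarith)
    obtain ⟨m, ⟨hm1, hm2⟩, hm3⟩ := ivt t r t4 r4
    have h1 : -T < m := lt_of_lt_of_le (lt_min t1 r1) hm1.le
    have h2 : m < T := lt_of_le_of_lt hm2.le (max_lt t2 r2)
    rcases (hTm m).1 hm3 with h | h <;> linarith

/-- The equations at the right end `T` of the trough of an even one-troughed wave. -/
theorem main_data {c ξ a b α β T : ℝ} (ha : 0 < a) (hb : 0 < b) (hab : a ^ 2 + b ^ 2 = 1)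
    (hc : 4 * a ^ 2 = 2 - c ^ 2) (hβ : 0 < β) (hβα : β < α) (hsum : α ^ 2 + β ^ 2 = c ^ 2)
    (hprod : α ^ 2 * β ^ 2 = ξ) {z0 z1 z2 z3 : ℝ → ℝ}
    (h0 : ∀ t, HasDerivAt z0 (z1 t) t) (h1 : ∀ t, HasDerivAt z1 (z2 t) t)
    (h2 : ∀ t, HasDerivAt z2 (z3 t) t)
    (h3 : ∀ t, HasDerivAt z3 (-c ^ 2 * z2 t - F ξ (z0 t)) t)
    (l0 : Tendsto z0 atTop (𝓝 0)) (l1 : Tendsto z1 atTop (𝓝 0))
    (e1 : z1 0 = 0) (e3 : z3 0 = 0) (hT : 0 < T) (zT : z0 T = -1)
    (hin : ∀ t, 0 ≤ t → t < T → z0 t < -1) (hout : ∀ t, T < t → -1 < z0 t) :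
    0 < z1 T ∧ z2 T = 1 - 2 * a * z1 T ∧ z3 T = (4 * a ^ 2 - 1) * z1 T - 2 * a ∧
    β * T < Real.pi / 2 ∧
    (1 - α ^ 2 + 2 * a * α ^ 2 * z1 T) * Real.sin (α * T) =
      α * ((1 - α ^ 2) * z1 T - 2 * a) * Real.cos (α * T) ∧
    (1 - β ^ 2 + 2 * a * β ^ 2 * z1 T) * Real.sin (β * T) =
      β * ((1 - β ^ 2) * z1 T - 2 * a) * Real.cos (β * T) ∧
    z1 T - 2 * a < Real.exp (a * ((Real.pi + Real.arccos a) / b)) := by
  have ha1 : a < 1 := by nlinarith
  have hα : 0 < α := hβ.trans hβα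
  have hβ1 : β ^ 2 < 1 := by nlinarith
  have zge : ∀ t, T ≤ t → -1 ≤ z0 t := by
    intro t ht
    rcases ht.eq_or_lt with rfl | h
    · exact zT.ge
    · exact (hout t h).le
  have zle : ∀ t, 0 ≤ t → t ≤ T → z0 t ≤ -1 := by
    intro t h h'
    rcases h'.eq_or_lt with rfl | h''
    · exact zT.le
    · exact (hin t h h'').le
  have out : ∀ t, T ≤ t → z2 t = -(2 * a) * z1 t - z0 t ∧ z3 t = -(2 * a) * z2 t - z1 t := by
    intro r hr
    exact outer ha ha1 hc (fun t _ => h0 t) (fun t _ => h1 t) (fun t _ => h2 t)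
      (fun t ht => (h3 t).congr_deriv (by rw [F_of_ge (zge t (hr.trans ht))])) l0 l1
  obtain ⟨o1, o2⟩ := out T le_rfl
  have z2T : z2 T = 1 - 2 * a * z1 T := by rw [o1, zT]; ring
  have z3T : z3 T = (4 * a ^ 2 - 1) * z1 T - 2 * a := by rw [o2, z2T]; ring
  -- the slope is positive
  have s0 : 0 ≤ z1 T := by
    have hs := (hasDerivAt_iff_tendsto_slope.1 (h0 T)).mono_left
      (show 𝓝[<] T ≤ 𝓝[≠] T from nhdsWithin_mono _ (fun x hx => ne_of_lt hx))
    refine ge_of_tendsto hs ?_
    have hm : Ioo 0 T ∈ 𝓝[<] T := Ioo_mem_nhdsLT hT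
    filter_upwards [hm] with t ht
    rw [slope_def_field, zT]
    have := hin t ht.1.le ht.2
    apply div_nonneg_of_nonpos <;> linarith [ht.2]
  have s1 : z1 T ≠ 0 := by
    intro hz
    have ed : deriv z0 = z1 := funext fun t => (h0 t).deriv
    have hmin : IsLocalMin z0 T := by
      apply isLocalMin_of_deriv_deriv_pos
      · rw [ed, (h1 T).deriv, z2T, hz]; norm_num
      · rw [ed]; exact hz
      · exact (h0 T).continuousAt
    have hlt : ∀ᶠ t in 𝓝[<] T, z0 t < -1 := by
      have hm : Ioo 0 T ∈ 𝓝[<] T := Ioo_mem_nhdsLT hT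
      filter_upwards [hm] with t ht
      exact hin t ht.1.le ht.2
    have hmin' : ∀ᶠ t in 𝓝[<] T, z0 T ≤ z0 t := hmin.filter_mono nhdsWithin_le_nhds
    obtain ⟨t, hu, hv⟩ := (hlt.and hmin').exists
    linarith
  have s : 0 < z1 T := lt_of_le_of_ne s0 (Ne.symm s1)
  -- the two harmonic oscillators
  have dF : ∀ t, 0 ≤ t → t ≤ T → HasDerivAt z3 (-c ^ 2 * z2 t - (ξ * (z0 t + 1) - 1)) t := by
    intro t h h'
    exact (h3 t).congr_deriv (by rw [F_of_le (zle t h h')])
  have hh : ∀ x y : ℝ, x ^ 2 + y ^ 2 = c ^ 2 → x ^ 2 * y ^ 2 = ξ → x ≠ 0 →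
      ∀ t, 0 ≤ t → t ≤ T →
      x ^ 2 * z2 t + ξ * (z0 t + 1) - 1 =
        (x ^ 2 * z2 0 + ξ * (z0 0 + 1) - 1) * Real.cos (x * t) ∧
      x ^ 2 * z3 t + ξ * z1 t =
        -x * (x ^ 2 * z2 0 + ξ * (z0 0 + 1) - 1) * Real.sin (x * t) := by
    intro x y hs hp hx
    refine harm (T := T) (p := fun t => x ^ 2 * z2 t + ξ * (z0 t + 1) - 1)
      (q := fun t => x ^ 2 * z3 t + ξ * z1 t) hx ?_ ?_ ?_
    · intro t _ _
      exact (((h2 t).const_mul (x ^ 2)).add (((h0 t).add_const 1).const_mul ξ)).sub_const 1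
    · intro t h h'
      refine (((dF t h h').const_mul (x ^ 2)).add ((h1 t).const_mul ξ)).congr_deriv ?_
      linear_combination (x ^ 2 * z2 t) * hs - z2 t * hp
    · rw [e1, e3]; ring
  have hA := hh α β hsum hprod hα.ne'
  have hB := hh β α (by rw [add_comm]; exact hsum) (by rw [mul_comm]; exact hprod) hβ.ne'
  obtain ⟨P, hP⟩ : ∃ P : ℝ, P = α ^ 2 * z2 0 + ξ * (z0 0 + 1) - 1 := ⟨_, rfl⟩
  obtain ⟨Q, hQ⟩ : ∃ Q : ℝ, Q = β ^ 2 * z2 0 + ξ * (z0 0 + 1) - 1 := ⟨_, rfl⟩
  rw [← hP] at hA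
  rw [← hQ] at hB
  have hw : ∀ t, 0 ≤ t → t ≤ T → (α ^ 2 - β ^ 2) * (ξ * (z0 t + 1) - 1) =
      α ^ 2 * Q * Real.cos (β * t) - β ^ 2 * P * Real.cos (α * t) := by
    intro t h h'
    linear_combination α ^ 2 * (hB t h h').1 - β ^ 2 * (hA t h h').1
  have hξ : 0 < ξ := by rw [← hprod]; positivity
  have hdiff : 0 < α ^ 2 - β ^ 2 := by nlinarith
  have neg : ∀ t, 0 ≤ t → t ≤ T → (α ^ 2 - β ^ 2) * (ξ * (z0 t + 1) - 1) < 0 := by
    intro t h h'
    have := zle t h h'
    have h1 : ξ * (z0 t + 1) ≤ 0 := mul_nonpos_of_nonneg_of_nonpos hξ.le (by linarith)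
    exact mul_neg_of_pos_of_neg hdiff (by linarith)
  have QT : -(1 - β ^ 2 + 2 * a * β ^ 2 * z1 T) = Q * Real.cos (β * T) := by
    have := (hB T hT.le le_rfl).1
    rw [z2T, zT] at this
    linear_combination this
  have hpos : 0 < 1 - β ^ 2 + 2 * a * β ^ 2 * z1 T := by
    have : 0 < 2 * a * β ^ 2 * z1 T := by positivity
    linarith
  have hpi := Real.pi_pos
  have hbT : β * T < Real.pi / 2 := by
    by_contra hcon
    push Not at hcon
    have haT : Real.pi / 2 < α * T := lt_of_le_of_lt hcon (mul_lt_mul_of_pos_right hβα hT)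
    have t1T : Real.pi / 2 / α < T := by
      rw [div_lt_iff₀ hα]; linarith
    have t1p : 0 < Real.pi / 2 / α := by positivity
    have a1 : α * (Real.pi / 2 / α) = Real.pi / 2 := by field_simp
    have Qneg : Q < 0 := by
      have e := hw _ t1p.le t1T.le
      have n := neg _ t1p.le t1T.le
      rw [e, a1, Real.cos_pi_div_two, mul_zero, sub_zero] at n
      have cpos : 0 < Real.cos (β * (Real.pi / 2 / α)) := by
        apply Real.cos_pos_of_mem_Ioo
        constructor
        · have : 0 < β * (Real.pi / 2 / α) := by positivity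
          linarith
        · calc β * (Real.pi / 2 / α) < α * (Real.pi / 2 / α) :=
              mul_lt_mul_of_pos_right hβα t1p
            _ = Real.pi / 2 := a1
      by_contra hq
      push Not at hq
      have : 0 ≤ α ^ 2 * Q * Real.cos (β * (Real.pi / 2 / α)) := by positivity
      linarith
    have cT : 0 < Real.cos (β * T) := by
      by_contra hq
      push Not at hq
      have : 0 ≤ Q * Real.cos (β * T) := mul_nonneg_of_nonpos_of_nonpos Qneg.le hq
      linarith
    have h3T : Real.pi + Real.pi / 2 < β * T := by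
      by_contra hq
      push Not at hq
      have := Real.cos_nonpos_of_pi_div_two_le_of_le hcon hq
      linarith
    -- a zero of `cos (α t)` with `cos (β t) ≤ 0`
    obtain ⟨k, hk⟩ : ∃ k : ℤ, k = ⌈α / (2 * β) - 1 / 2⌉ := ⟨_, rfl⟩
    have k1 : α / (2 * β) - 1 / 2 ≤ k := by rw [hk]; exact Int.le_ceil _
    have k2 : (k : ℝ) < α / (2 * β) - 1 / 2 + 1 := by rw [hk]; exact Int.ceil_lt_add_one _
    obtain ⟨t, ht⟩ : ∃ t : ℝ, t = (2 * k + 1) * Real.pi / 2 / α := ⟨_, rfl⟩
    have a2 : α * t = (2 * k + 1) * Real.pi / 2 := by rw [ht]; field_simp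
    have b1 : Real.pi / 2 ≤ β * t := by
      rw [ht]
      have : α / β ≤ 2 * k + 1 := by
        have e : α / (2 * β) = α / β / 2 := by field_simp
        rw [e] at k1; linarith
      rw [div_le_iff₀ hβ] at this
      have e : β * ((2 * (k : ℝ) + 1) * Real.pi / 2 / α) = Real.pi / 2 * ((2 * k + 1) * β / α) := by
        ring
      rw [e]
      have h1 : 1 ≤ (2 * (k : ℝ) + 1) * β / α := by rw [le_div_iff₀ hα]; linarith
      nlinarith
    have b2 : β * t < Real.pi + Real.pi / 2 := by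
      rw [ht]
      have e0 : α / (2 * β) = α / β / 2 := by field_simp
      have : 2 * (k : ℝ) + 1 < α / β + 2 := by
        rw [e0] at k2; linarith
      have e : β * ((2 * (k : ℝ) + 1) * Real.pi / 2 / α) = Real.pi / 2 * ((2 * k + 1) * (β / α)) := by
        ring
      rw [e]
      have hr : β / α < 1 := by rw [div_lt_one hα]; exact hβα
      have hr0 : 0 < β / α := by positivity
      have h1 : (2 * (k : ℝ) + 1) * (β / α) < (α / β + 2) * (β / α) :=
        mul_lt_mul_of_pos_right this hr0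
      have h2 : (α / β + 2) * (β / α) = 1 + 2 * (β / α) := by field_simp
      have h3 : (2 * (k : ℝ) + 1) * (β / α) < 3 := by linarith
      nlinarith
    have t0 : 0 < t := by
      by_contra hq
      push Not at hq
      have : β * t ≤ 0 := mul_nonpos_of_nonneg_of_nonpos hβ.le hq
      linarith
    have tT : t < T := by
      have : β * t < β * T := by linarith
      exact lt_of_mul_lt_mul_left this hβ.le
    have c0 : Real.cos (α * t) = 0 := by
      rw [Real.cos_eq_zero_iff]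
      exact ⟨k, a2⟩
    have e := hw t t0.le tT.le
    have n := neg t t0.le tT.le
    rw [e, c0, mul_zero, sub_zero] at n
    have cneg := Real.cos_nonpos_of_pi_div_two_le_of_le b1 b2.le
    have : 0 ≤ α ^ 2 * Q * Real.cos (β * t) := by
      apply mul_nonneg_of_nonpos_of_nonpos _ cneg
      exact mul_nonpos_of_nonneg_of_nonpos (by positivity) Qneg.le
    linarith
  refine ⟨s, z2T, z3T, hbT, ?_, ?_, ?_⟩
  · obtain ⟨u1, u2⟩ := hA T hT.le le_rfl
    rw [z2T, zT] at u1
    rw [z3T] at u2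
    have : α * ((1 - α ^ 2 + 2 * a * α ^ 2 * z1 T) * Real.sin (α * T)) =
      α * (α * ((1 - α ^ 2) * z1 T - 2 * a) * Real.cos (α * T)) := by
      linear_combination (-α * Real.sin (α * T)) * u1 - Real.cos (α * T) * u2 +
        (α ^ 2 * z1 T * Real.cos (α * T)) * hc - (z1 T * Real.cos (α * T)) * hprod +
        (α ^ 2 * z1 T * Real.cos (α * T)) * hsum
    exact mul_left_cancel₀ hα.ne' this
  · obtain ⟨u1, u2⟩ := hB T hT.le le_rfl
    rw [z2T, zT] at u1
    rw [z3T] at u2
    have : β * ((1 - β ^ 2 + 2 * a * β ^ 2 * z1 T) * Real.sin (β * T)) =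
      β * (β * ((1 - β ^ 2) * z1 T - 2 * a) * Real.cos (β * T)) := by
      linear_combination (-β * Real.sin (β * T)) * u1 - Real.cos (β * T) * u2 +
        (β ^ 2 * z1 T * Real.cos (β * T)) * hc - (z1 T * Real.cos (β * T)) * hprod +
        (β ^ 2 * z1 T * Real.cos (β * T)) * hsum
    exact mul_left_cancel₀ hβ.ne' this
  · have hu : 0 ≤ (Real.pi + Real.arccos a) / b := by
      have := Real.arccos_nonneg a
      positivity
    have d := damp hb hab (fun t _ => h0 t)
      (fun t ht => (h1 t).congr_deriv (out t ht).1) _ hu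
    have hbu : b * ((Real.pi + Real.arccos a) / b) = Real.arccos a + Real.pi := by
      field_simp; ring
    rw [hbu, Real.cos_add_pi, Real.sin_add_pi, Real.cos_arccos (by linarith) ha1.le,
      Real.sin_arccos, show 1 - a ^ 2 = b ^ 2 by linarith, Real.sqrt_sq hb.le, zT] at d
    have hu' : 0 < (Real.pi + Real.arccos a) / b := by
      have := Real.arccos_nonneg a
      positivity
    have g := hout (T + (Real.pi + Real.arccos a) / b) (by linarith)
    rw [d] at g
    have e5 : -1 * -a + (z1 T + a * -1) / b * -b = -(z1 T - 2 * a) := by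
      field_simp; ring
    rw [e5] at g
    have e6 : Real.exp (-(a * ((Real.pi + Real.arccos a) / b))) *
        Real.exp (a * ((Real.pi + Real.arccos a) / b)) = 1 := by
      rw [← Real.exp_add, neg_add_cancel, Real.exp_zero]
    have pos1 := Real.exp_pos (a * ((Real.pi + Real.arccos a) / b))
    have g2 : Real.exp (-(a * ((Real.pi + Real.arccos a) / b))) * (z1 T - 2 * a) < 1 := by
      linarith
    calc z1 T - 2 * a = (Real.exp (-(a * ((Real.pi + Real.arccos a) / b))) * (z1 T - 2 * a)) *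
          Real.exp (a * ((Real.pi + Real.arccos a) / b)) := by
          linear_combination (-(z1 T - 2 * a)) * e6
      _ < 1 * Real.exp (a * ((Real.pi + Real.arccos a) / b)) := mul_lt_mul_of_pos_right g2 pos1
      _ = _ := one_mul _

end Q191.Beam
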