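import Pool.Agent.Q191.Beam.Main

/-! Definitions and the final theorem on one-troughed travelling waves. -/

set_option autoImplicit false

open Filter Topology Set

namespace Q191.Beam

/-- `z` is the profile of a travelling wave: a `C⁴` solution on the line of
`z'''' + c² z'' + (z + 1)⁺ - ξ (z + 1)⁻ - 1 = 0` such that `z` and `z'` tend to zero at `±∞`. -/
structure IsWave (c ξ : ℝ) (z : ℝ → ℝ) : Prop where
  smooth : ContDiff ℝ 4 z
  eqn : ∀ t, iteratedDeriv 4 z t + c ^ 2 * iteratedDeriv 2 z t +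
    max (z t + 1) 0 - ξ * max (-(z t + 1)) 0 - 1 = 0
  top : Tendsto z atTop (𝓝 0)
  bot : Tendsto z atBot (𝓝 0)
  dtop : Tendsto (deriv z) atTop (𝓝 0)
  dbot : Tendsto (deriv z) atBot (𝓝 0)

/-- `z` drops below `-1` on exactly one (nonempty, open, bounded) interval. -/
def OneTroughed (z : ℝ → ℝ) : Prop := ∃ t₁ t₂ : ℝ, t₁ < t₂ ∧ {t | z t < -1} = Ioo t₁ t₂

/-- Some translate of `z` is an even function. -/
def IsEven (z : ℝ → ℝ) : Prop := ∃ t₀ : ℝ, ∀ t, z (t₀ + t) = z (t₀ - t)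

theorem hasDeriv {z : ℝ → ℝ} (h : ContDiff ℝ 4 z) {n : ℕ} (hn : n < 4) (t : ℝ) :
    HasDerivAt (iteratedDeriv n z) (iteratedDeriv (n + 1) z t) t := by
  rw [iteratedDeriv_succ]
  exact ((h.differentiable_iteratedDeriv n (by exact_mod_cast hn)) t).hasDerivAt

theorem even_of_oneTroughed {c ξ : ℝ} (_hc0 : 0 < c ^ 2) (hc2 : c ^ 2 < 2) (hξ : ξ < 1)
    {z : ℝ → ℝ} (hz : IsWave c ξ z) (ht : OneTroughed z) : IsEven z := by
  obtain ⟨t₁, t₂, h12, htr⟩ := ht
  have hα : 0 < Real.sqrt (2 - c ^ 2) / 2 := by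
    have : 0 < Real.sqrt (2 - c ^ 2) := Real.sqrt_pos.2 (by linarith)
    positivity
  have hαc : 4 * (Real.sqrt (2 - c ^ 2) / 2) ^ 2 = 2 - c ^ 2 := by
    rw [div_pow, Real.sq_sqrt (by linarith)]; ring
  have hα1 : Real.sqrt (2 - c ^ 2) / 2 < 1 := by nlinarith
  have sh : ∀ t : ℝ, HasDerivAt (fun s => (t₁ + t₂) / 2 + s) 1 t := fun t => by
    simpa using (hasDerivAt_id t).const_add ((t₁ + t₂) / 2)
  have dd : ∀ n : ℕ, n < 4 → ∀ t, HasDerivAt (fun s => iteratedDeriv n z ((t₁ + t₂) / 2 + s))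
      (iteratedDeriv (n + 1) z ((t₁ + t₂) / 2 + t)) t := by
    intro n hn t
    exact ((hasDeriv hz.smooth hn _).comp t (sh t)).congr_deriv (mul_one _)
  have d0 := dd 0 (by norm_num)
  have d1 := dd 1 (by norm_num)
  have d2 := dd 2 (by norm_num)
  have d3 := dd 3 (by norm_num)
  simp only [iteratedDeriv_zero, zero_add] at d0
  have top1 : Tendsto (fun s : ℝ => (t₁ + t₂) / 2 + s) atTop atTop :=
    tendsto_atTop_add_const_left _ _ tendsto_id
  have bot1 : Tendsto (fun s : ℝ => (t₁ + t₂) / 2 + s) atBot atBot :=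
    tendsto_atBot_add_const_left _ _ tendsto_id
  have key := core (c := c) (ξ := ξ) (ℓ := (t₂ - t₁) / 2) hα hα1 hαc hξ (by linarith)
    d0 d1 d2
    (z3 := fun s => iteratedDeriv 3 z ((t₁ + t₂) / 2 + s))
    (fun t => (d3 t).congr_deriv (by
      have := hz.eqn ((t₁ + t₂) / 2 + t)
      simp only [F]
      linarith))
    (hz.top.comp top1)
    (by
      have := hz.dtop.comp top1
      rw [← iteratedDeriv_one] at this
      exact this)
    (hz.bot.comp bot1)
    (by
      have := hz.dbot.comp bot1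
      rw [← iteratedDeriv_one] at this
      exact this)
    (fun t => by
      have h : (t₁ + t₂) / 2 + t ∈ {t | z t < -1} ↔ (t₁ + t₂) / 2 + t ∈ Ioo t₁ t₂ := by rw [htr]
      rw [mem_ofPred_eq, mem_Ioo] at h
      rw [h]
      constructor
      · rintro ⟨a, b⟩; constructor <;> linarith
      · rintro ⟨a, b⟩; constructor <;> linarith)
  refine ⟨(t₁ + t₂) / 2, fun t => ?_⟩
  rw [sub_eq_add_neg]
  exact key t

end Q191.Beam
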