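import Pool.Agent.Q191.Beam.Phase

/-! At most five even one-troughed travelling waves. -/

set_option autoImplicit false

open Filter Topology Set

namespace Q191.Beam

theorem deriv_of_even {z0 z1 : ℝ → ℝ} (h : ∀ t, HasDerivAt z0 (z1 t) t)
    (he : ∀ t, z0 (-t) = z0 t) (t : ℝ) : z1 (-t) = -z1 t := by
  have e : HasDerivAt (fun s => z0 (-s)) (z1 (-t) * -1) t := (h (-t)).comp t (hasDerivAt_neg t)
  rw [show (fun s => z0 (-s)) = z0 from funext he] at e
  have := e.unique (h t)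
  linarith

theorem deriv_of_odd {z0 z1 : ℝ → ℝ} (h : ∀ t, HasDerivAt z0 (z1 t) t)
    (he : ∀ t, z0 (-t) = -z0 t) (t : ℝ) : z1 (-t) = z1 t := by
  have e : HasDerivAt (fun s => z0 (-s)) (z1 (-t) * -1) t := (h (-t)).comp t (hasDerivAt_neg t)
  rw [show (fun s => z0 (-s)) = fun s => -z0 s from funext he] at e
  have := e.unique (h t).neg
  linarith

theorem no_touch {c ξ a T : ℝ} (ha : 0 < a) (ha1 : a < 1)
    (hc : 4 * a ^ 2 = 2 - c ^ 2) {z0 z1 z2 z3 : ℝ → ℝ}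
    (h0 : ∀ t, HasDerivAt z0 (z1 t) t) (h1 : ∀ t, HasDerivAt z1 (z2 t) t)
    (h2 : ∀ t, HasDerivAt z2 (z3 t) t)
    (h3 : ∀ t, HasDerivAt z3 (-c ^ 2 * z2 t - F ξ (z0 t)) t)
    (l0 : Tendsto z0 atTop (𝓝 0)) (l1 : Tendsto z1 atTop (𝓝 0))
    (he : ∀ t, z0 (-t) = z0 t) (zT : z0 T = -1) (hge : ∀ t, -1 ≤ z0 t) : False := by
  have o1 := deriv_of_even h0 he
  have o2 := deriv_of_odd h1 o1
  have out : ∀ t, z2 t = -(2 * a) * z1 t - z0 t := by
    intro r
    exact (outer ha ha1 hc (T := r) (fun t _ => h0 t) (fun t _ => h1 t) (fun t _ => h2 t)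
      (fun t ht => (h3 t).congr_deriv (by rw [F_of_ge (hge t)])) l0 l1).1
  have z1z : ∀ t, z1 t = 0 := by
    intro t
    have u := out t
    have v := out (-t)
    rw [o1, o2, he] at v
    have : a * z1 t = 0 := by linarith
    exact (mul_eq_zero.1 this).resolve_left ha.ne'
  have cst : ∀ t, T ≤ t → z0 t = -1 := by
    intro t ht
    rw [← zT]
    exact (const_of ht (fun s _ _ => (h0 s).congr_deriv (z1z s))).symm
  have l2 : Tendsto z0 atTop (𝓝 (-1)) := by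
    refine tendsto_const_nhds.congr' ?_
    filter_upwards [eventually_ge_atTop T] with t ht
    exact (cst t ht).symm
  have := tendsto_nhds_unique l0 l2
  norm_num at this

/-- The data of an even one-troughed wave: the end `T` of the trough, the slope `s` at `T` and the
integer `n` of the phase equation. -/
def Dat (a α β : ℝ) (z : ℝ → ℝ) (n : ℤ) : Prop :=
  ∃ T s : ℝ, 0 < s ∧ β * T = Real.arctan (β * s) - th a β ∧ (n : ℝ) * Real.pi = gg a α β s ∧
    z T = -1 ∧ iteratedDeriv 1 z T = s ∧ iteratedDeriv 2 z T = 1 - 2 * a * s ∧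
    iteratedDeriv 3 z T = (4 * a ^ 2 - 1) * s - 2 * a

theorem eqn' {c ξ : ℝ} {z : ℝ → ℝ} (hz : IsWave c ξ z) (t : ℝ) :
    HasDerivAt (iteratedDeriv 3 z) (-c ^ 2 * iteratedDeriv 2 z t - F ξ (z t)) t := by
  refine (hasDeriv hz.smooth (by norm_num) t).congr_deriv ?_
  have := hz.eqn t
  simp only [F]
  linarith

theorem exists_dat {c ξ a b α β : ℝ} (hc0 : 0 < c) (ha : 0 < a) (hb : 0 < b)
    (hab : a ^ 2 + b ^ 2 = 1)
    (hc : 4 * a ^ 2 = 2 - c ^ 2) (hβ : 0 < β) (hβα : β < α) (hsum : α ^ 2 + β ^ 2 = c ^ 2)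
    (hprod : α ^ 2 * β ^ 2 = ξ) {z : ℝ → ℝ} (hz : IsWave c ξ z) (he : ∀ t, z (-t) = z t)
    (h2 : {t | z t = -1}.encard = 2) : ∃ n : ℤ, n ∈ Icc (1 : ℤ) 5 ∧ Dat a α β z n := by
  have ha1 : a < 1 := by nlinarith
  have hβ1 : β ^ 2 < 1 := by nlinarith
  have hα : 0 < α := hβ.trans hβα
  have d0 := fun t => hasDeriv hz.smooth (n := 0) (by norm_num) t
  have d1 := fun t => hasDeriv hz.smooth (n := 1) (by norm_num) t
  have d2 := fun t => hasDeriv hz.smooth (n := 2) (by norm_num) t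
  have d3 := eqn' hz
  simp only [iteratedDeriv_zero, zero_add] at d0 d1 d2
  have l1 : Tendsto (iteratedDeriv 1 z) atTop (𝓝 0) := by
    rw [iteratedDeriv_one]; exact hz.dtop
  have o1 := deriv_of_even d0 he
  have o2 := deriv_of_odd d1 o1
  have o3 := deriv_of_even d2 o2
  have e1 : iteratedDeriv 1 z 0 = 0 := by
    have := o1 0
    rw [neg_zero] at this
    linarith
  have e3 : iteratedDeriv 3 z 0 = 0 := by
    have := o3 0
    rw [neg_zero] at this
    linarith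
  obtain ⟨T, hT, zT, hout, hin⟩ := two_points hz.smooth.continuous he h2 hz.top
  rcases hin with hin | hin
  · obtain ⟨s0, s2, s3, hbT, pα, pβ, hex⟩ := main_data ha hb hab hc hβ hβα hsum hprod d0 d1 d2 d3
      hz.top l1 e1 e3 hT zT (fun t h h' => hin t (by linarith) h') hout
    have hTe := T_eq ha hβ hβ1 s0 hT hbT pβ
    obtain ⟨hs1, hs2⟩ := T_lt ha hβ hβ1 hT hTe
    have g0 := gg_pos ha hβ hβα hβ1 hs1
    have g1 := gg_lt ha hb hab hc0 hc hβ hβα hsum s0 hT hs2 hTe hex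
    obtain ⟨n, hn⟩ := phase ha hα pα
    have hg : (n : ℝ) * Real.pi = gg a α β (iteratedDeriv 1 z T) := by
      rw [hn]
      unfold gg
      rw [← hTe]
      field_simp
    have hpi := Real.pi_pos
    refine ⟨n, ⟨?_, ?_⟩, T, _, s0, hTe, hg, zT, rfl, s2, s3⟩
    · have : (0 : ℝ) < n := by
        rw [← hg] at g0
        exact pos_of_mul_pos_left g0 hpi.le
      have : 0 < n := by exact_mod_cast this
      omega
    · have : (n : ℝ) < 6 := by
        rw [← hg] at g1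
        exact lt_of_mul_lt_mul_right g1 hpi.le
      have : n < 6 := by exact_mod_cast this
      omega
  · exfalso
    refine no_touch ha ha1 hc d0 d1 d2 d3 hz.top l1 he zT (fun t => ?_)
    rcases lt_trichotomy (|t|) T with h | h | h
    · rw [abs_lt] at h
      exact (hin t h.1 h.2).le
    · have : z t = -1 := by
        rcases abs_eq hT.le |>.1 h with h | h
        · rw [h]; exact zT
        · rw [h, he]; exact zT
      exact this.ge
    · rcases abs_cases t with ⟨h', _⟩ | ⟨h', _⟩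
      · rw [h'] at h
        exact (hout t h).le
      · rw [h'] at h
        have := hout (-t) h
        rw [he] at this
        exact this.le

theorem dat_unique {c ξ a α β : ℝ} (hβ : 0 < β) (hβα : β < α) {z y : ℝ → ℝ}
    (hz : IsWave c ξ z) (hy : IsWave c ξ y) {n : ℤ} (dz : Dat a α β z n) (dy : Dat a α β y n) :
    z = y := by
  obtain ⟨T, s, s0, t0, g0, a0, a1, a2, a3⟩ := dz
  obtain ⟨T', s', s0', t0', g0', b0, b1, b2, b3⟩ := dy
  have hs : s = s' := by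
    apply (gg_mono (a := a) hβ hβα).injOn (mem_Ici.2 s0.le) (mem_Ici.2 s0'.le)
    rw [← g0, ← g0']
  subst hs
  have hT : T = T' := by
    apply mul_left_cancel₀ hβ.ne'
    rw [t0, t0']
  subst hT
  obtain ⟨K, hK⟩ := lip c ξ
  have dd : ∀ {w : ℝ → ℝ}, IsWave c ξ w → ∀ t, HasDerivAt
      (fun t => (w t, iteratedDeriv 1 w t, iteratedDeriv 2 w t, iteratedDeriv 3 w t))
      ((iteratedDeriv 1 w t, iteratedDeriv 2 w t, iteratedDeriv 3 w t,
        -c ^ 2 * iteratedDeriv 2 w t - F ξ (w t))) t := by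
    intro w hw t
    have d0 := hasDeriv hw.smooth (n := 0) (by norm_num) t
    rw [iteratedDeriv_zero] at d0
    exact d0.prodMk ((hasDeriv hw.smooth (n := 1) (by norm_num) t).prodMk
      ((hasDeriv hw.smooth (n := 2) (by norm_num) t).prodMk (eqn' hw t)))
  have huniq := ODE_solution_unique_univ (v := fun _ => fun p : ℝ × ℝ × ℝ × ℝ =>
      (p.2.1, p.2.2.1, p.2.2.2, -c ^ 2 * p.2.2.1 - F ξ p.1)) (s := fun _ => univ) (K := K)
    (f := fun t => (z t, iteratedDeriv 1 z t, iteratedDeriv 2 z t, iteratedDeriv 3 z t))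
    (g := fun t => (y t, iteratedDeriv 1 y t, iteratedDeriv 2 y t, iteratedDeriv 3 y t)) (t₀ := T)
    (fun _ => hK.lipschitzOnWith)
    (fun t => ⟨dd hz t, trivial⟩) (fun t => ⟨dd hy t, trivial⟩)
    (by
      show (z T, iteratedDeriv 1 z T, iteratedDeriv 2 z T, iteratedDeriv 3 z T) =
        (y T, iteratedDeriv 1 y T, iteratedDeriv 2 y T, iteratedDeriv 3 y T)
      rw [a0, a1, a2, a3, b0, b1, b2, b3])
  funext t
  exact congrArg Prod.fst (congrFun huniq t)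

theorem params {c ξ : ℝ} (hc0 : 0 < c) (hc2 : c ^ 2 < 2) (hξ0 : 0 < ξ) (hξ : ξ < c ^ 4 / 4) :
    ∃ a b α β : ℝ, 0 < a ∧ 0 < b ∧ a ^ 2 + b ^ 2 = 1 ∧ 4 * a ^ 2 = 2 - c ^ 2 ∧ 0 < β ∧ β < α ∧
      α ^ 2 + β ^ 2 = c ^ 2 ∧ α ^ 2 * β ^ 2 = ξ := by
  have hd0 : 0 < c ^ 4 - 4 * ξ := by linarith
  obtain ⟨d, hd⟩ : ∃ d, d = Real.sqrt (c ^ 4 - 4 * ξ) := ⟨_, rfl⟩
  have d0 : 0 < d := by rw [hd]; exact Real.sqrt_pos.2 hd0
  have d2 : d ^ 2 = c ^ 4 - 4 * ξ := by rw [hd]; exact Real.sq_sqrt hd0.le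
  have dc : d < c ^ 2 := by
    have h : d ^ 2 < (c ^ 2) ^ 2 := by rw [d2]; nlinarith
    exact lt_of_pow_lt_pow_left₀ 2 (by positivity) h
  refine ⟨Real.sqrt ((2 - c ^ 2) / 4), Real.sqrt ((2 + c ^ 2) / 4), Real.sqrt ((c ^ 2 + d) / 2),
    Real.sqrt ((c ^ 2 - d) / 2), Real.sqrt_pos.2 (by linarith), Real.sqrt_pos.2 (by positivity),
    ?_, ?_, Real.sqrt_pos.2 (by linarith), ?_, ?_, ?_⟩
  · rw [Real.sq_sqrt (by linarith), Real.sq_sqrt (by positivity)]; ring
  · rw [Real.sq_sqrt (by linarith)]; ring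
  · exact Real.sqrt_lt_sqrt (by linarith) (by linarith)
  · rw [Real.sq_sqrt (by positivity), Real.sq_sqrt (by linarith)]; ring
  · rw [Real.sq_sqrt (by positivity), Real.sq_sqrt (by linarith)]
    linear_combination (-1 / 4 : ℝ) * d2

theorem five {c ξ : ℝ} (hc0 : 0 < c) (hc2 : c ^ 2 < 2) (hξ0 : 0 < ξ) (hξ : ξ < c ^ 4 / 4) :
    {z : ℝ → ℝ | IsWave c ξ z ∧ (∀ t, z (-t) = z t) ∧ {t | z t = -1}.encard = 2}.encard ≤ 5 := by
  obtain ⟨a, b, α, β, ha, hb, hab, hc, hβ, hβα, hsum, hprod⟩ := params hc0 hc2 hξ0 hξ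
  have key : ∀ z : ℝ → ℝ, (IsWave c ξ z ∧ (∀ t, z (-t) = z t) ∧ {t | z t = -1}.encard = 2) →
      ∃ n : ℤ, n ∈ Icc (1 : ℤ) 5 ∧ Dat a α β z n := fun z hz =>
    exists_dat hc0 ha hb hab hc hβ hβα hsum hprod hz.1 hz.2.1 hz.2.2
  choose! N hN using key
  have h5 : (Icc (1 : ℤ) 5).encard = 5 := by
    rw [← Finset.coe_Icc, Set.encard_coe_eq_coe_finsetCard]
    rfl
  rw [← h5]
  apply Set.encard_le_encard_of_injOn (f := N)
  · intro z hz
    exact (hN z hz).1
  · intro z hz y hy hzy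
    have h1 := (hN z hz).2
    have h2 := (hN y hy).2
    rw [← hzy] at h2
    exact dat_unique hβ hβα hz.1 hy.1 h1 h2

end Q191.Beam
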