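import Mathlib

/-! One-troughed travelling waves of the piecewise-linear beam equation are even. -/

set_option autoImplicit false

open Filter Topology Set

namespace Q191.Beam

/-- The nonlinearity `(x + 1)⁺ - ξ (x + 1)⁻ - 1`. -/
noncomputable def F (ξ x : ℝ) : ℝ := max (x + 1) 0 - ξ * max (-(x + 1)) 0 - 1

theorem F_of_ge {ξ x : ℝ} (h : -1 ≤ x) : F ξ x = x := by
  rw [F, max_eq_left (by linarith), max_eq_right (by linarith)]; ring

theorem F_of_le {ξ x : ℝ} (h : x ≤ -1) : F ξ x = ξ * (x + 1) - 1 := by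
  rw [F, max_eq_right (by linarith), max_eq_left (by linarith)]; ring

/-- a function with zero derivative takes equal values at the end points -/
theorem const_of {f : ℝ → ℝ} {a b : ℝ} (hab : a ≤ b) (hf : ∀ t, a ≤ t → t ≤ b → HasDerivAt f 0 t) :
    f a = f b := by
  rcases hab.eq_or_lt with rfl | hab
  · rfl
  obtain ⟨c, _, hc⟩ := exists_hasDerivAt_eq_slope f (fun _ => 0) hab
    (fun t ht => (hf t ht.1 ht.2).continuousAt.continuousWithinAt)
    (fun t ht => hf t ht.1.le ht.2.le)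
  have : f b - f a = 0 := by
    field_simp at hc
    have hba : b - a ≠ 0 := by linarith
    rcases eq_or_ne (f b - f a) 0 with h | h
    · exact h
    · linarith
  linarith

/-- decaying solutions of the outer equation -/
theorem outer {c α T : ℝ} {z0 z1 z2 z3 : ℝ → ℝ} (hα : 0 < α) (hα1 : α < 1)
    (hc : 4 * α ^ 2 = 2 - c ^ 2)
    (h0 : ∀ t, T ≤ t → HasDerivAt z0 (z1 t) t) (h1 : ∀ t, T ≤ t → HasDerivAt z1 (z2 t) t)
    (h2 : ∀ t, T ≤ t → HasDerivAt z2 (z3 t) t)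
    (h3 : ∀ t, T ≤ t → HasDerivAt z3 (-c ^ 2 * z2 t - z0 t) t)
    (l0 : Tendsto z0 atTop (𝓝 0)) (l1 : Tendsto z1 atTop (𝓝 0)) :
    z2 T = -(2 * α) * z1 T - z0 T ∧ z3 T = -(2 * α) * z2 T - z1 T := by
  obtain ⟨w, hw⟩ : ∃ w : ℝ → ℝ, w = fun t => z2 t + 2 * α * z1 t + z0 t := ⟨_, rfl⟩
  obtain ⟨y, hy⟩ : ∃ y : ℝ → ℝ, y = fun t => 2 * α * w t - (z3 t + 2 * α * z2 t + z1 t) :=
    ⟨_, rfl⟩
  have hw' : ∀ t, w t = z2 t + 2 * α * z1 t + z0 t := fun t => by rw [hw]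
  have hy' : ∀ t, y t = 2 * α * w t - (z3 t + 2 * α * z2 t + z1 t) := fun t => by rw [hy]
  have dw : ∀ t, T ≤ t → HasDerivAt w (2 * α * w t - y t) t := by
    intro t ht
    have e : HasDerivAt (fun t => z2 t + 2 * α * z1 t + z0 t) (z3 t + 2 * α * z2 t + z1 t) t :=
      ((h2 t ht).add ((h1 t ht).const_mul (2 * α))).add (h0 t ht)
    rw [← hw] at e
    refine e.congr_deriv ?_
    rw [hy', hw']; ring
  have dy : ∀ t, T ≤ t → HasDerivAt y (w t) t := by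
    intro t ht
    have e : HasDerivAt (fun t => 2 * α * w t - (z3 t + 2 * α * z2 t + z1 t))
        (2 * α * (2 * α * w t - y t) - (-c ^ 2 * z2 t - z0 t + 2 * α * z3 t + z2 t)) t :=
      ((dw t ht).const_mul (2 * α)).sub
        (((h3 t ht).add ((h2 t ht).const_mul (2 * α))).add (h1 t ht))
    rw [← hy] at e
    refine e.congr_deriv ?_
    rw [hy', hw']
    linear_combination (z2 t) * hc
  -- the conserved quantity
  have dk : ∀ t, T ≤ t → HasDerivAt (fun t => Real.exp (-α * t) * y t)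
      (Real.exp (-α * t) * (w t - α * y t)) t := by
    intro t ht
    have he : HasDerivAt (fun t : ℝ => Real.exp (-α * t)) (Real.exp (-α * t) * (-α * 1)) t :=
      ((hasDerivAt_id t).const_mul (-α)).exp
    exact (he.mul (dy t ht)).congr_deriv (by ring)
  have dkw : ∀ t, T ≤ t → HasDerivAt (fun t => Real.exp (-α * t) * w t)
      (Real.exp (-α * t) * (α * w t - y t)) t := by
    intro t ht
    have he : HasDerivAt (fun t : ℝ => Real.exp (-α * t)) (Real.exp (-α * t) * (-α * 1)) t :=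
      ((hasDerivAt_id t).const_mul (-α)).exp
    exact (he.mul (dw t ht)).congr_deriv (by ring)
  obtain ⟨k, hk⟩ : ∃ k : ℝ → ℝ, ∀ t, k t = Real.exp (-α * t) * y t := ⟨_, fun _ => rfl⟩
  obtain ⟨m, hm⟩ : ∃ m : ℝ → ℝ, ∀ t, m t = Real.exp (-α * t) * w t := ⟨_, fun _ => rfl⟩
  have hk2 : k = fun t => Real.exp (-α * t) * y t := funext hk
  have hm2 : m = fun t => Real.exp (-α * t) * w t := funext hm
  have dk' : ∀ t, T ≤ t → HasDerivAt k (m t - α * k t) t := by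
    intro t ht
    rw [hk2]
    exact (dk t ht).congr_deriv (by rw [hm]; ring)
  have dm' : ∀ t, T ≤ t → HasDerivAt m (α * m t - k t) t := by
    intro t ht
    rw [hm2]
    exact (dkw t ht).congr_deriv (by rw [hk]; ring)
  have hN : ∀ t, T ≤ t → m t ^ 2 - 2 * α * m t * k t + k t ^ 2 =
      m T ^ 2 - 2 * α * m T * k T + k T ^ 2 := by
    intro t ht
    refine (const_of (f := fun t => m t ^ 2 - 2 * α * m t * k t + k t ^ 2) ht ?_).symm
    intro s hs _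
    have e := (((dm' s hs).pow 2).sub (((dm' s hs).const_mul (2 * α)).mul (dk' s hs))).add
      ((dk' s hs).pow 2)
    refine e.congr_deriv ?_
    push_cast
    ring
  -- growth of `y`
  have b0 : ∀ᶠ t in atTop, |z0 t| ≤ 1 := by
    have := l0.eventually (Metric.closedBall_mem_nhds (0 : ℝ) one_pos)
    filter_upwards [this] with t ht
    simpa using ht
  have b1 : ∀ᶠ t in atTop, |z1 t| ≤ 1 := by
    have := l1.eventually (Metric.closedBall_mem_nhds (0 : ℝ) one_pos)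
    filter_upwards [this] with t ht
    simpa using ht
  obtain ⟨T0, hT0⟩ := eventually_atTop.1 ((b0.and b1).and (eventually_ge_atTop (max T 0)))
  have hTT : T ≤ T0 := le_trans (le_max_left _ _) (hT0 T0 le_rfl).2
  have hT00 : 0 ≤ T0 := le_trans (le_max_right _ _) (hT0 T0 le_rfl).2
  obtain ⟨X, hX⟩ : ∃ X : ℝ → ℝ, X = fun t => z1 t + 2 * α * z0 t - y t := ⟨_, rfl⟩
  have dX : ∀ t, T ≤ t → HasDerivAt X (-z0 t) t := by
    intro t ht
    have e : HasDerivAt (fun t => z1 t + 2 * α * z0 t - y t) (z2 t + 2 * α * z1 t - w t) t :=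
      ((h1 t ht).add ((h0 t ht).const_mul (2 * α))).sub (dy t ht)
    rw [← hX] at e
    exact e.congr_deriv (by rw [hw']; ring)
  have gX : ∀ t, T0 ≤ t → |X t - X T0| ≤ t - T0 := by
    intro t ht
    rcases ht.eq_or_lt with rfl | ht'
    · simp
    obtain ⟨s, hs, he⟩ := exists_hasDerivAt_eq_slope X (fun t => -z0 t) ht'
      (fun r hr => (dX r (hTT.trans hr.1)).continuousAt.continuousWithinAt)
      (fun r hr => dX r (hTT.trans hr.1.le))
    have hpos : 0 < t - T0 := by linarith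
    have e2 : X t - X T0 = -z0 s * (t - T0) := by
      rw [he]; field_simp
    rw [e2, abs_mul, abs_neg, abs_of_pos hpos]
    have := (hT0 s hs.1.le).1.1
    nlinarith
  have gy : ∀ t, T0 ≤ t → |y t| ≤ (3 + |X T0|) + t := by
    intro t ht
    have e1 := gX t ht
    have e2 := (hT0 t ht).1.1
    have e3 := (hT0 t ht).1.2
    have e4 : y t = z1 t + 2 * α * z0 t - (X t - X T0) - X T0 := by
      rw [show X t = z1 t + 2 * α * z0 t - y t by rw [hX]]; ring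
    have e5 : |2 * α * z0 t| ≤ 2 := by
      rw [abs_mul, abs_of_pos (by positivity)]
      nlinarith [abs_nonneg (z0 t)]
    rw [e4]
    have := abs_sub (z1 t + 2 * α * z0 t - (X t - X T0)) (X T0)
    have := abs_sub (z1 t + 2 * α * z0 t) (X t - X T0)
    have := abs_add_le (z1 t) (2 * α * z0 t)
    linarith
  have lk : Tendsto k atTop (𝓝 0) := by
    have t1 : Tendsto (fun t : ℝ => t ^ (1 : ℝ) * Real.exp (-α * t)) atTop (𝓝 0) :=
      tendsto_rpow_mul_exp_neg_mul_atTop_nhds_zero 1 α hα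
    have t0 : Tendsto (fun t : ℝ => t ^ (0 : ℝ) * Real.exp (-α * t)) atTop (𝓝 0) :=
      tendsto_rpow_mul_exp_neg_mul_atTop_nhds_zero 0 α hα
    have t2 : Tendsto (fun t : ℝ => (3 + |X T0|) * (t ^ (0 : ℝ) * Real.exp (-α * t)) +
        t ^ (1 : ℝ) * Real.exp (-α * t)) atTop (𝓝 0) := by
      simpa using (t0.const_mul (3 + |X T0|)).add t1
    refine squeeze_zero_norm' ?_ t2
    filter_upwards [eventually_ge_atTop T0] with t ht
    rw [hk, Real.norm_eq_abs, abs_mul, abs_of_pos (Real.exp_pos _), Real.rpow_one, Real.rpow_zero]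
    have := mul_le_mul_of_nonneg_left (gy t ht) (Real.exp_pos (-α * t)).le
    linarith
  have hN0 : m T ^ 2 - 2 * α * m T * k T + k T ^ 2 ≤ 0 := by
    apply le_of_forall_pos_le_add
    intro ε hε
    -- choose `δ` with `((e^α + 2) δ)² ≤ ε`
    obtain ⟨δ, hδ, hδε⟩ : ∃ δ > 0, ((Real.exp α + 2) * δ) ^ 2 ≤ ε := by
      refine ⟨Real.sqrt ε / (Real.exp α + 2), by positivity, ?_⟩
      rw [mul_div_cancel₀ _ (by positivity), Real.sq_sqrt hε.le]
    have hev := lk.eventually (Metric.closedBall_mem_nhds (0 : ℝ) hδ)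
    obtain ⟨T1, hT1⟩ := eventually_atTop.1 (hev.and (eventually_ge_atTop T))
    have kk : ∀ t, T1 ≤ t → |k t| ≤ δ := by
      intro t ht
      have := (hT1 t ht).1
      simpa using this
    have hT1T : T ≤ T1 := (hT1 T1 le_rfl).2
    obtain ⟨s, hs, he⟩ := exists_hasDerivAt_eq_slope y w (show T1 < T1 + 1 by linarith)
      (fun r hr => (dy r (hT1T.trans hr.1)).continuousAt.continuousWithinAt)
      (fun r hr => dy r (hT1T.trans hr.1.le))
    have e1 : w s = y (T1 + 1) - y T1 := by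
      rw [he]; ring
    have e2 : m s = Real.exp (-α * (s - T1)) * (Real.exp α * k (T1 + 1) - k T1) := by
      rw [hm, e1, hk, hk, mul_sub, mul_sub, ← mul_assoc, ← mul_assoc, ← mul_assoc, ← Real.exp_add,
        ← Real.exp_add, ← Real.exp_add]
      congr 2 <;> congr 1 <;> ring
    have e3 : |m s| ≤ (Real.exp α + 1) * δ := by
      rw [e2, abs_mul, abs_of_pos (Real.exp_pos _)]
      have a1 : Real.exp (-α * (s - T1)) ≤ 1 := by
        apply Real.exp_le_one_iff.2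
        nlinarith [hs.1]
      have a2 : |Real.exp α * k (T1 + 1) - k T1| ≤ (Real.exp α + 1) * δ := by
        have := abs_sub (Real.exp α * k (T1 + 1)) (k T1)
        rw [abs_mul, abs_of_pos (Real.exp_pos _)] at this
        have b1 := mul_le_mul_of_nonneg_left (kk (T1 + 1) (by linarith)) (Real.exp_pos α).le
        have b2 := kk T1 le_rfl
        linarith
      calc Real.exp (-α * (s - T1)) * |Real.exp α * k (T1 + 1) - k T1|
          ≤ 1 * |Real.exp α * k (T1 + 1) - k T1| :=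
            mul_le_mul_of_nonneg_right a1 (abs_nonneg _)
        _ ≤ (Real.exp α + 1) * δ := by rw [one_mul]; exact a2
    have e4 := kk s hs.1.le
    have e5 := hN s (hT1T.trans hs.1.le)
    have e6 : m s ^ 2 - 2 * α * m s * k s + k s ^ 2 ≤ (|m s| + |k s|) ^ 2 := by
      have : -(m s * k s) ≤ |m s| * |k s| := by
        rw [← abs_mul]; exact neg_le_abs _
      have h2 : 0 ≤ |m s| * |k s| := by positivity
      have h3 : -(2 * α * m s * k s) ≤ 2 * (|m s| * |k s|) := by nlinarith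
      nlinarith [sq_abs (m s), sq_abs (k s)]
    have e7 : (|m s| + |k s|) ^ 2 ≤ ((Real.exp α + 2) * δ) ^ 2 := by
      apply pow_le_pow_left₀ (by positivity)
      linarith
    linarith
  have hk0 : k T = 0 ∧ m T = 0 := by
    have e : m T ^ 2 - 2 * α * m T * k T + k T ^ 2 =
      (m T - α * k T) ^ 2 + (1 - α ^ 2) * k T ^ 2 := by ring
    have hα2 : 0 < 1 - α ^ 2 := by nlinarith
    have h1 : k T ^ 2 = 0 := by nlinarith [sq_nonneg (m T - α * k T), sq_nonneg (k T)]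
    have h2 : k T = 0 := by simpa using h1
    rw [h2] at hN0
    refine ⟨h2, ?_⟩
    nlinarith
  have hy0 : y T = 0 := by
    have := hk0.1
    rw [hk] at this
    rcases mul_eq_zero.1 this with h | h
    · exact absurd h (Real.exp_pos _).ne'
    · exact h
  have hw0 : w T = 0 := by
    have := hk0.2
    rw [hm] at this
    rcases mul_eq_zero.1 this with h | h
    · exact absurd h (Real.exp_pos _).ne'
    · exact h
  have a1 := hw' T
  have a2 := hy' T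
  rw [hw0] at a1 a2
  rw [hy0] at a2
  constructor <;> linarith

/-- conservation of the bilinear form inside the trough -/
theorem mid_const {c ξ ℓ : ℝ} (hℓ : 0 ≤ ℓ) {p0 p1 p2 p3 q0 q1 q2 q3 : ℝ → ℝ}
    (hp0 : ∀ t, 0 ≤ t → t ≤ ℓ → HasDerivAt p0 (p1 t) t)
    (hp1 : ∀ t, 0 ≤ t → t ≤ ℓ → HasDerivAt p1 (p2 t) t)
    (hp2 : ∀ t, 0 ≤ t → t ≤ ℓ → HasDerivAt p2 (p3 t) t)
    (hp3 : ∀ t, 0 ≤ t → t ≤ ℓ → HasDerivAt p3 (-c ^ 2 * p2 t - ξ * p0 t) t)
    (hq0 : ∀ t, 0 ≤ t → t ≤ ℓ → HasDerivAt q0 (q1 t) t)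
    (hq1 : ∀ t, 0 ≤ t → t ≤ ℓ → HasDerivAt q1 (q2 t) t)
    (hq2 : ∀ t, 0 ≤ t → t ≤ ℓ → HasDerivAt q2 (q3 t) t)
    (hq3 : ∀ t, 0 ≤ t → t ≤ ℓ → HasDerivAt q3 (-c ^ 2 * q2 t - ξ * q0 t) t) :
    p1 0 * q3 0 + p3 0 * q1 0 - p2 0 * q2 0 + c ^ 2 * (p1 0 * q1 0) + ξ * (p0 0 * q0 0) =
    p1 ℓ * q3 ℓ + p3 ℓ * q1 ℓ - p2 ℓ * q2 ℓ + c ^ 2 * (p1 ℓ * q1 ℓ) + ξ * (p0 ℓ * q0 ℓ) := by
  refine const_of (f := fun t => p1 t * q3 t + p3 t * q1 t - p2 t * q2 t +
    c ^ 2 * (p1 t * q1 t) + ξ * (p0 t * q0 t)) hℓ ?_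
  intro t h1 h2
  have e := ((((hp1 t h1 h2).mul (hq3 t h1 h2)).add ((hp3 t h1 h2).mul (hq1 t h1 h2))).sub
    ((hp2 t h1 h2).mul (hq2 t h1 h2))).add (((hp1 t h1 h2).mul (hq1 t h1 h2)).const_mul (c ^ 2))
    |>.add (((hp0 t h1 h2).mul (hq0 t h1 h2)).const_mul ξ)
  refine e.congr_deriv ?_
  ring

theorem F_lip (ξ x y : ℝ) : |F ξ x - F ξ y| ≤ (1 + |ξ|) * |x - y| := by
  have h1 : |max (x + 1) 0 - max (y + 1) 0| ≤ |x - y| := by
    have := abs_max_sub_max_le_abs (x + 1) (y + 1) 0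
    rwa [add_sub_add_right_eq_sub] at this
  have h2 : |max (-(x + 1)) 0 - max (-(y + 1)) 0| ≤ |x - y| := by
    have := abs_max_sub_max_le_abs (-(x + 1)) (-(y + 1)) 0
    rwa [show -(x + 1) - -(y + 1) = -(x - y) by ring, abs_neg] at this
  have h3 : F ξ x - F ξ y = (max (x + 1) 0 - max (y + 1) 0) -
      ξ * (max (-(x + 1)) 0 - max (-(y + 1)) 0) := by
    unfold F; ring
  rw [h3]
  have h4 := abs_sub (max (x + 1) 0 - max (y + 1) 0)
    (ξ * (max (-(x + 1)) 0 - max (-(y + 1)) 0))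
  rw [abs_mul] at h4
  have h5 := mul_le_mul_of_nonneg_left h2 (abs_nonneg ξ)
  linarith

theorem lip (c ξ : ℝ) : ∃ K : NNReal, LipschitzWith K
    (fun p : ℝ × ℝ × ℝ × ℝ => (p.2.1, p.2.2.1, p.2.2.2, -c ^ 2 * p.2.2.1 - F ξ p.1)) := by
  refine ⟨Real.toNNReal (c ^ 2 + (1 + |ξ|) + 1), LipschitzWith.of_dist_le_mul ?_⟩
  intro p q
  rw [Real.coe_toNNReal _ (by positivity)]
  obtain ⟨p0, p1, p2, p3⟩ := p
  obtain ⟨q0, q1, q2, q3⟩ := q
  simp only [Prod.dist_eq, Real.dist_eq]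
  set D := max |p0 - q0| (max |p1 - q1| (max |p2 - q2| |p3 - q3|)) with hD
  have e0 : |p0 - q0| ≤ D := le_max_left _ _
  have e1 : |p1 - q1| ≤ D := (le_max_left _ _).trans (le_max_right _ _)
  have e2 : |p2 - q2| ≤ D :=
    ((le_max_left _ _).trans (le_max_right _ _)).trans (le_max_right _ _)
  have e3 : |p3 - q3| ≤ D :=
    ((le_max_right _ _).trans (le_max_right _ _)).trans (le_max_right _ _)
  have hD0 : 0 ≤ D := (abs_nonneg _).trans e0
  have hK : D ≤ (c ^ 2 + (1 + |ξ|) + 1) * D := by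
    have : 0 ≤ c ^ 2 + (1 + |ξ|) := by positivity
    nlinarith
  have e4 : |-c ^ 2 * p2 - F ξ p0 - (-c ^ 2 * q2 - F ξ q0)| ≤ (c ^ 2 + (1 + |ξ|) + 1) * D := by
    have h1 := F_lip ξ p0 q0
    have h2 : -c ^ 2 * p2 - F ξ p0 - (-c ^ 2 * q2 - F ξ q0) =
      -(c ^ 2 * (p2 - q2)) - (F ξ p0 - F ξ q0) := by ring
    rw [h2]
    have h3 := abs_sub (-(c ^ 2 * (p2 - q2))) (F ξ p0 - F ξ q0)
    rw [abs_neg, abs_mul, abs_of_nonneg (sq_nonneg c)] at h3
    have h4 := mul_le_mul_of_nonneg_left e2 (sq_nonneg c)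
    have h5 := mul_le_mul_of_nonneg_left e0 (show 0 ≤ 1 + |ξ| by positivity)
    nlinarith
  refine max_le (e1.trans hK) (max_le (e2.trans hK) (max_le (e3.trans hK) e4))

theorem alg {c x p a b : ℝ} (E1 : 2 * (x * p) + c ^ 2 * x ^ 2 = 0)
    (E2 : x * b + p * a + c ^ 2 * (x * a) = 0) (hneg : 2 * (a * b) + c ^ 2 * a ^ 2 < 0) :
    x = 0 ∧ p = 0 := by
  have hx : x = 0 := by
    by_contra hne
    have u1 : 2 * p + c ^ 2 * x = 0 := by
      have : x * (2 * p + c ^ 2 * x) = 0 := by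
        linear_combination E1
      exact (mul_eq_zero.1 this).resolve_left hne
    have u2 : 2 * b + c ^ 2 * a = 0 := by
      have : x * (2 * b + c ^ 2 * a) = 0 := by
        linear_combination 2 * E2 - a * u1
      exact (mul_eq_zero.1 this).resolve_left hne
    have u3 : 2 * (a * b) + c ^ 2 * a ^ 2 = 0 := by
      linear_combination a * u2
    linarith
  refine ⟨hx, ?_⟩
  rw [hx] at E2
  have u1 : p * a = 0 := by linear_combination E2
  rcases mul_eq_zero.1 u1 with h | h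
  · exact h
  · rw [h] at hneg
    norm_num at hneg

theorem core {c ξ ℓ α : ℝ} (hα : 0 < α) (hα1 : α < 1) (hc : 4 * α ^ 2 = 2 - c ^ 2) (hξ : ξ < 1)
    (hℓ : 0 < ℓ) {z0 z1 z2 z3 : ℝ → ℝ}
    (h0 : ∀ t, HasDerivAt z0 (z1 t) t) (h1 : ∀ t, HasDerivAt z1 (z2 t) t)
    (h2 : ∀ t, HasDerivAt z2 (z3 t) t)
    (h3 : ∀ t, HasDerivAt z3 (-c ^ 2 * z2 t - F ξ (z0 t)) t)
    (l0 : Tendsto z0 atTop (𝓝 0)) (l1 : Tendsto z1 atTop (𝓝 0))
    (m0 : Tendsto z0 atBot (𝓝 0)) (m1 : Tendsto z1 atBot (𝓝 0))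
    (tr : ∀ t, z0 t < -1 ↔ -ℓ < t ∧ t < ℓ) : ∀ t, z0 t = z0 (-t) := by
  obtain ⟨y0, hy0⟩ : ∃ y0 : ℝ → ℝ, ∀ t, y0 t = z0 (-t) := ⟨_, fun _ => rfl⟩
  obtain ⟨y1, hy1⟩ : ∃ y1 : ℝ → ℝ, ∀ t, y1 t = -z1 (-t) := ⟨_, fun _ => rfl⟩
  obtain ⟨y2, hy2⟩ : ∃ y2 : ℝ → ℝ, ∀ t, y2 t = z2 (-t) := ⟨_, fun _ => rfl⟩
  obtain ⟨y3, hy3⟩ : ∃ y3 : ℝ → ℝ, ∀ t, y3 t = -z3 (-t) := ⟨_, fun _ => rfl⟩
  have k0 : ∀ t, HasDerivAt y0 (y1 t) t := by
    intro t
    rw [show y0 = fun t => z0 (-t) from funext hy0, hy1]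
    exact ((h0 (-t)).comp t (hasDerivAt_neg t)).congr_deriv (by ring)
  have k1 : ∀ t, HasDerivAt y1 (y2 t) t := by
    intro t
    rw [show y1 = fun t => -z1 (-t) from funext hy1, hy2]
    exact ((h1 (-t)).comp t (hasDerivAt_neg t)).neg.congr_deriv (by ring)
  have k2 : ∀ t, HasDerivAt y2 (y3 t) t := by
    intro t
    rw [show y2 = fun t => z2 (-t) from funext hy2, hy3]
    exact ((h2 (-t)).comp t (hasDerivAt_neg t)).congr_deriv (by ring)
  have k3 : ∀ t, HasDerivAt y3 (-c ^ 2 * y2 t - F ξ (y0 t)) t := by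
    intro t
    rw [show y3 = fun t => -z3 (-t) from funext hy3, hy2, hy0]
    exact ((h3 (-t)).comp t (hasDerivAt_neg t)).neg.congr_deriv (by ring)
  have n0 : Tendsto y0 atTop (𝓝 0) := by
    rw [show y0 = fun t => z0 (-t) from funext hy0]
    exact m0.comp tendsto_neg_atTop_atBot
  have n1 : Tendsto y1 atTop (𝓝 0) := by
    rw [show y1 = fun t => -z1 (-t) from funext hy1]
    simpa using (m1.comp tendsto_neg_atTop_atBot).neg
  have zge : ∀ t, ℓ ≤ t → -1 ≤ z0 t := by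
    intro t ht
    by_contra h
    push Not at h
    have := (tr t).1 h
    linarith [this.2]
  have yge : ∀ t, ℓ ≤ t → -1 ≤ y0 t := by
    intro t ht
    by_contra h
    push Not at h
    rw [hy0] at h
    have := (tr (-t)).1 h
    linarith [this.1]
  have cz : Continuous z0 := continuous_iff_continuousAt.2 fun t => (h0 t).continuousAt
  have zle : ∀ t, -ℓ ≤ t → t ≤ ℓ → z0 t ≤ -1 := by
    have hcl : IsClosed {t | z0 t ≤ -1} := isClosed_le cz continuous_const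
    have hsub : Ioo (-ℓ) ℓ ⊆ {t | z0 t ≤ -1} := fun t ht => ((tr t).2 ht).le
    have := closure_minimal hsub hcl
    rw [closure_Ioo (by linarith)] at this
    intro t ht1 ht2
    exact this ⟨ht1, ht2⟩
  have yle : ∀ t, -ℓ ≤ t → t ≤ ℓ → y0 t ≤ -1 := by
    intro t ht1 ht2
    rw [hy0]
    exact zle _ (by linarith) (by linarith)
  have zl : z0 ℓ = -1 := le_antisymm (zle ℓ (by linarith) le_rfl) (zge ℓ le_rfl)
  have yl : y0 ℓ = -1 := le_antisymm (yle ℓ (by linarith) le_rfl) (yge ℓ le_rfl)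
  obtain ⟨z2l, z3l⟩ := outer hα hα1 hc (fun t _ => h0 t) (fun t _ => h1 t) (fun t _ => h2 t)
    (fun t ht => (h3 t).congr_deriv (by rw [F_of_ge (zge t ht)])) l0 l1
  obtain ⟨y2l, y3l⟩ := outer hα hα1 hc (fun t _ => k0 t) (fun t _ => k1 t) (fun t _ => k2 t)
    (fun t ht => (k3 t).congr_deriv (by rw [F_of_ge (yge t ht)])) n0 n1
  -- the slope at the end of the trough
  have hg0 : z1 ℓ + y1 ℓ ≠ 0 := by
    intro hz
    have d1 : ∀ t, HasDerivAt (fun t => z0 t + y0 t) (z1 t + y1 t) t :=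
      fun t => (h0 t).add (k0 t)
    have d2 : HasDerivAt (fun t => z1 t + y1 t) (z2 ℓ + y2 ℓ) ℓ := (h1 ℓ).add (k1 ℓ)
    have e1 : deriv (fun t => z0 t + y0 t) = fun t => z1 t + y1 t := funext fun t => (d1 t).deriv
    have hmin : IsLocalMin (fun t => z0 t + y0 t) ℓ := by
      apply isLocalMin_of_deriv_deriv_pos
      · rw [e1, d2.deriv, z2l, y2l, zl, yl]
        have : -(2 * α) * z1 ℓ - -1 + (-(2 * α) * y1 ℓ - -1) = -(2 * α) * (z1 ℓ + y1 ℓ) + 2 := by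
          ring
        rw [this, hz]; norm_num
      · rw [e1]; exact hz
      · exact (d1 ℓ).continuousAt
    have hlt : ∀ᶠ t in 𝓝[<] ℓ, z0 t + y0 t < -2 := by
      have hm : Ioo (-ℓ) ℓ ∈ 𝓝[<] ℓ := Ioo_mem_nhdsLT (by linarith)
      filter_upwards [hm] with t ht
      have a1 := (tr t).2 ht
      have a2 := (tr (-t)).2 ⟨by linarith [ht.2], by linarith [ht.1]⟩
      rw [hy0]
      linarith
    have hmin' : ∀ᶠ t in 𝓝[<] ℓ, z0 ℓ + y0 ℓ ≤ z0 t + y0 t := hmin.filter_mono nhdsWithin_le_nhds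
    obtain ⟨t, ha, hb⟩ := (hlt.and hmin').exists
    rw [zl, yl] at hb
    linarith
  -- the odd part and the derivative of the even part
  obtain ⟨g3, hg3⟩ : ∃ g3 : ℝ → ℝ, ∀ t, g3 t =
      -c ^ 2 * (z2 t + y2 t) - ξ * (z0 t + y0 t) + 2 * (1 - ξ) := ⟨_, fun _ => rfl⟩
  have f0' : ∀ t, 0 ≤ t → t ≤ ℓ → HasDerivAt (fun t => z0 t - y0 t) (z1 t - y1 t) t :=
    fun t _ _ => (h0 t).sub (k0 t)
  have f1' : ∀ t, 0 ≤ t → t ≤ ℓ → HasDerivAt (fun t => z1 t - y1 t) (z2 t - y2 t) t :=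
    fun t _ _ => (h1 t).sub (k1 t)
  have f2' : ∀ t, 0 ≤ t → t ≤ ℓ → HasDerivAt (fun t => z2 t - y2 t) (z3 t - y3 t) t :=
    fun t _ _ => (h2 t).sub (k2 t)
  have f3' : ∀ t, 0 ≤ t → t ≤ ℓ → HasDerivAt (fun t => z3 t - y3 t)
      (-c ^ 2 * (z2 t - y2 t) - ξ * (z0 t - y0 t)) t := by
    intro t a b
    refine ((h3 t).sub (k3 t)).congr_deriv ?_
    rw [F_of_le (zle t (by linarith) b), F_of_le (yle t (by linarith) b)]
    ring
  have g0' : ∀ t, 0 ≤ t → t ≤ ℓ → HasDerivAt (fun t => z1 t + y1 t) (z2 t + y2 t) t :=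
    fun t _ _ => (h1 t).add (k1 t)
  have g1' : ∀ t, 0 ≤ t → t ≤ ℓ → HasDerivAt (fun t => z2 t + y2 t) (z3 t + y3 t) t :=
    fun t _ _ => (h2 t).add (k2 t)
  have g2' : ∀ t, 0 ≤ t → t ≤ ℓ → HasDerivAt (fun t => z3 t + y3 t) (g3 t) t := by
    intro t a b
    refine ((h3 t).add (k3 t)).congr_deriv ?_
    rw [F_of_le (zle t (by linarith) b), F_of_le (yle t (by linarith) b), hg3]
    ring
  have g3' : ∀ t, 0 ≤ t → t ≤ ℓ → HasDerivAt g3
      (-c ^ 2 * (z3 t + y3 t) - ξ * (z1 t + y1 t)) t := by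
    intro t a b
    rw [show g3 = fun t => -c ^ 2 * (z2 t + y2 t) - ξ * (z0 t + y0 t) + 2 * (1 - ξ) from
      funext hg3]
    have e := ((((h2 t).add (k2 t)).const_mul (-c ^ 2)).sub
      (((h0 t).add (k0 t)).const_mul ξ)).add_const (2 * (1 - ξ))
    exact e
  have c1 := mid_const hℓ.le f0' f1' f2' f3' f0' f1' f2' f3'
  have c2 := mid_const hℓ.le f0' f1' f2' f3' g0' g1' g2' g3'
  have c3 := mid_const hℓ.le g0' g1' g2' g3' g0' g1' g2' g3'
  have a0 : y0 0 = z0 0 := by rw [hy0, neg_zero]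
  have a1 : y1 0 = -z1 0 := by rw [hy1, neg_zero]
  have a2 : y2 0 = z2 0 := by rw [hy2, neg_zero]
  have a3 : y3 0 = -z3 0 := by rw [hy3, neg_zero]
  have g3l : g3 ℓ = -(2 * α) * (z3 ℓ + y3 ℓ) - (z2 ℓ + y2 ℓ) := by
    rw [hg3, zl, yl, z3l, y3l, z2l, y2l, zl, yl]
    linear_combination (2 * α * (z1 ℓ + y1 ℓ) - 2) * hc
  have r0 : z0 ℓ - y0 ℓ = 0 := by rw [zl, yl]; ring
  have r2 : z2 ℓ - y2 ℓ = -(2 * α) * (z1 ℓ - y1 ℓ) := by rw [z2l, y2l, zl, yl]; ring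
  have r3 : z3 ℓ - y3 ℓ = (4 * α ^ 2 - 1) * (z1 ℓ - y1 ℓ) := by
    rw [z3l, y3l]; linear_combination (-(2 * α)) * r2
  have q2 : z3 ℓ + y3 ℓ = -(2 * α) * (z2 ℓ + y2 ℓ) - (z1 ℓ + y1 ℓ) := by
    rw [z3l, y3l]; ring
  have s0 : z0 0 - y0 0 = 0 := by rw [a0]; ring
  have s2 : z2 0 - y2 0 = 0 := by rw [a2]; ring
  have t0 : z1 0 + y1 0 = 0 := by rw [a1]; ring
  have t2 : z3 0 + y3 0 = 0 := by rw [a3]; ring
  rw [r0, r2, r3, s0, s2] at c1
  rw [r0, r2, r3, s0, s2, g3l, q2] at c2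
  rw [t0, t2, g3l, q2] at c3
  have E1 : 2 * ((z1 0 - y1 0) * (z3 0 - y3 0)) + c ^ 2 * (z1 0 - y1 0) ^ 2 = 0 := by
    linear_combination c1 + (z1 ℓ - y1 ℓ) ^ 2 * hc
  have E2 : (z1 0 - y1 0) * g3 0 + (z3 0 - y3 0) * (z2 0 + y2 0) +
      c ^ 2 * ((z1 0 - y1 0) * (z2 0 + y2 0)) = 0 := by
    linear_combination c2 + (z1 ℓ - y1 ℓ) * (z2 ℓ + y2 ℓ) * hc
  have E3 : 2 * ((z2 0 + y2 0) * g3 0) + c ^ 2 * (z2 0 + y2 0) ^ 2 =
      -(1 - ξ) * (z1 ℓ + y1 ℓ) ^ 2 := by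
    linear_combination c3 + (z2 ℓ + y2 ℓ) ^ 2 * hc
  have hpos : 0 < (z1 ℓ + y1 ℓ) ^ 2 := by positivity
  have hneg : 2 * ((z2 0 + y2 0) * g3 0) + c ^ 2 * (z2 0 + y2 0) ^ 2 < 0 := by
    rw [E3]
    have := mul_pos (sub_pos.2 hξ) hpos
    linarith only [this]
  obtain ⟨hx, hp⟩ := alg E1 E2 hneg
  -- uniqueness
  obtain ⟨K, hK⟩ := lip c ξ
  have huniq := ODE_solution_unique_univ (v := fun _ => fun p : ℝ × ℝ × ℝ × ℝ =>
      (p.2.1, p.2.2.1, p.2.2.2, -c ^ 2 * p.2.2.1 - F ξ p.1)) (s := fun _ => univ) (K := K)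
    (f := fun t => (z0 t, z1 t, z2 t, z3 t)) (g := fun t => (y0 t, y1 t, y2 t, y3 t)) (t₀ := 0)
    (fun _ => hK.lipschitzOnWith)
    (fun t => ⟨(h0 t).prodMk ((h1 t).prodMk ((h2 t).prodMk (h3 t))), trivial⟩)
    (fun t => ⟨(k0 t).prodMk ((k1 t).prodMk ((k2 t).prodMk (k3 t))), trivial⟩)
    (by
      show (z0 0, z1 0, z2 0, z3 0) = (y0 0, y1 0, y2 0, y3 0)
      rw [a0, a2, sub_eq_zero.1 hx, sub_eq_zero.1 hp])
  intro t
  rw [← hy0]
  exact congrArg Prod.fst (congrFun huniq t)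

end Q191.Beam
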