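import Pool.Agent.Q191.Beam.Count

/-! Counting even one-troughed travelling waves: phases and numerical bounds. -/

set_option autoImplicit false

open Filter Topology Set

namespace Q191.Beam

/-- the angle in `(0, π)` with tangent `2 a x / (1 - x²)` -/
noncomputable def th (a x : ℝ) : ℝ := Real.pi / 2 - Real.arctan ((1 - x ^ 2) / (2 * a * x))

theorem th_pos (a x : ℝ) : 0 < th a x := by
  have := Real.arctan_lt_pi_div_two ((1 - x ^ 2) / (2 * a * x))
  unfold th; linarith

theorem th_lt (a x : ℝ) : th a x < Real.pi := by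
  have := Real.neg_pi_div_two_lt_arctan ((1 - x ^ 2) / (2 * a * x))
  unfold th; linarith

theorem th_lt_half {a x : ℝ} (ha : 0 < a) (hx : 0 < x) (hx1 : x ^ 2 < 1) :
    th a x < Real.pi / 2 := by
  have : 0 < Real.arctan ((1 - x ^ 2) / (2 * a * x)) := by
    rw [Real.arctan_pos]
    apply div_pos <;> [linarith; positivity]
  unfold th; linarith

theorem phase {a x s T : ℝ} (ha : 0 < a) (hx : 0 < x)
    (h : (1 - x ^ 2 + 2 * a * x ^ 2 * s) * Real.sin (x * T) =
      x * ((1 - x ^ 2) * s - 2 * a) * Real.cos (x * T)) :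
    ∃ n : ℤ, (n : ℝ) * Real.pi = x * T + th a x - Real.arctan (x * s) := by
  rw [← Real.sin_eq_zero_iff]
  obtain ⟨y, hy⟩ : ∃ y : ℝ, y = (1 - x ^ 2) / (2 * a * x) := ⟨_, rfl⟩
  have hy' : 2 * a * x * y = 1 - x ^ 2 := by rw [hy]; field_simp
  have e : x * T + th a x - Real.arctan (x * s) =
      (x * T - (Real.arctan y + Real.arctan (x * s))) + Real.pi / 2 := by
    rw [hy]; unfold th; ring
  rw [e, Real.sin_add_pi_div_two, Real.cos_sub, Real.cos_add, Real.sin_add, Real.cos_arctan,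
    Real.cos_arctan, Real.sin_arctan, Real.sin_arctan]
  have p1 : 0 < Real.sqrt (1 + y ^ 2) := Real.sqrt_pos.2 (by positivity)
  have p2 : 0 < Real.sqrt (1 + (x * s) ^ 2) := Real.sqrt_pos.2 (by positivity)
  have e2 : Real.cos (x * T) * (1 / Real.sqrt (1 + y ^ 2) * (1 / Real.sqrt (1 + (x * s) ^ 2)) -
        y / Real.sqrt (1 + y ^ 2) * (x * s / Real.sqrt (1 + (x * s) ^ 2))) +
      Real.sin (x * T) * (y / Real.sqrt (1 + y ^ 2) * (1 / Real.sqrt (1 + (x * s) ^ 2)) +
        1 / Real.sqrt (1 + y ^ 2) * (x * s / Real.sqrt (1 + (x * s) ^ 2))) =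
      (Real.cos (x * T) * (1 - y * (x * s)) + Real.sin (x * T) * (y + x * s)) /
        (Real.sqrt (1 + y ^ 2) * Real.sqrt (1 + (x * s) ^ 2)) := by
    field_simp
  rw [e2, div_eq_zero_iff]
  left
  have h2 : 2 * a * x ≠ 0 := by positivity
  apply mul_left_cancel₀ h2
  rw [mul_zero]
  linear_combination h + (Real.sin (x * T) - Real.cos (x * T) * (x * s)) * hy'

theorem sub_arctan_mono {u v : ℝ} (h : v ≤ u) : Real.arctan u - Real.arctan v ≤ u - v := by
  have m : Monotone (fun x : ℝ => x - Real.arctan x) := by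
    have hd : ∀ x : ℝ, HasDerivAt (fun x : ℝ => x - Real.arctan x) (1 - 1 / (1 + x ^ 2)) x :=
      fun x => (hasDerivAt_id x).sub (Real.hasDerivAt_arctan x)
    apply monotone_of_deriv_nonneg (fun x => (hd x).differentiableAt)
    intro x
    rw [(hd x).deriv]
    have : 1 / (1 + x ^ 2) ≤ 1 := by
      rw [div_le_one (by positivity)]
      nlinarith [sq_nonneg x]
    linarith
  have := m h
  simp only at this
  linarith

/-- the phase as a function of the slope `s` at the end of the trough -/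
noncomputable def gg (a α β s : ℝ) : ℝ :=
  α / β * (Real.arctan (β * s) - th a β) + th a α - Real.arctan (α * s)

theorem gg_mono {a α β : ℝ} (hβ : 0 < β) (hβα : β < α) :
    StrictMonoOn (gg a α β) (Ici 0) := by
  have hd : ∀ s : ℝ, HasDerivAt (gg a α β)
      (α / β * (1 / (1 + (β * s) ^ 2) * β) - 1 / (1 + (α * s) ^ 2) * α) s := by
    intro s
    have k : ∀ x : ℝ, HasDerivAt (fun s : ℝ => x * s) x s := fun x => by
      simpa using (hasDerivAt_id s).const_mul x
    exact ((((k β).arctan.sub_const (th a β)).const_mul (α / β)).add_const (th a α)).sub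
      (k α).arctan
  apply strictMonoOn_of_deriv_pos (convex_Ici 0)
    (fun s _ => (hd s).continuousAt.continuousWithinAt)
  intro s hs
  rw [interior_Ici, mem_Ioi] at hs
  rw [(hd s).deriv]
  have hα : 0 < α := hβ.trans hβα
  have e : α / β * (1 / (1 + (β * s) ^ 2) * β) = α * (1 / (1 + (β * s) ^ 2)) := by
    field_simp
  rw [e]
  have h1 : (β * s) ^ 2 < (α * s) ^ 2 := by
    have : β * s < α * s := mul_lt_mul_of_pos_right hβα hs
    have h0 : 0 < β * s := by positivity
    nlinarith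
  have h2 : 1 / (1 + (α * s) ^ 2) < 1 / (1 + (β * s) ^ 2) :=
    one_div_lt_one_div_of_lt (by positivity) (by linarith)
  nlinarith

theorem T_eq {a β s T : ℝ} (ha : 0 < a) (hβ : 0 < β) (hβ1 : β ^ 2 < 1) (hs : 0 < s) (hT : 0 < T)
    (hbT : β * T < Real.pi / 2)
    (h : (1 - β ^ 2 + 2 * a * β ^ 2 * s) * Real.sin (β * T) =
      β * ((1 - β ^ 2) * s - 2 * a) * Real.cos (β * T)) :
    β * T = Real.arctan (β * s) - th a β := by
  obtain ⟨n, hn⟩ := phase ha hβ h
  have h1 := th_pos a β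
  have h2 := th_lt_half ha hβ hβ1
  have h3 := Real.arctan_lt_pi_div_two (β * s)
  have h4 : 0 < Real.arctan (β * s) := Real.arctan_pos.2 (by positivity)
  have h5 : 0 < β * T := by positivity
  have hpi := Real.pi_pos
  have n0 : n = 0 := by
    have u : (n : ℝ) < 1 := by
      by_contra hq
      push Not at hq
      have := mul_le_mul_of_nonneg_right hq hpi.le
      linarith
    have v : (-1 : ℝ) < n := by
      by_contra hq
      push Not at hq
      have := mul_le_mul_of_nonneg_right hq hpi.le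
      linarith
    have u' : n < 1 := by exact_mod_cast u
    have v' : -1 < n := by exact_mod_cast v
    omega
  rw [n0] at hn
  push_cast at hn
  linarith

theorem th_eq_arctan {a x : ℝ} (ha : 0 < a) (hx : 0 < x) (hx1 : x ^ 2 < 1) :
    th a x = Real.arctan (2 * a * x / (1 - x ^ 2)) := by
  have : 0 < (1 - x ^ 2) / (2 * a * x) := by
    apply div_pos <;> [linarith; positivity]
  rw [th, ← Real.arctan_inv_of_pos this, inv_div]

/-- `T < s - 2 a` and `s > 2 a / (1 - β²)` -/
theorem T_lt {a β s T : ℝ} (ha : 0 < a) (hβ : 0 < β) (hβ1 : β ^ 2 < 1) (hT : 0 < T)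
    (h : β * T = Real.arctan (β * s) - th a β) :
    2 * a / (1 - β ^ 2) < s ∧ T < s - 2 * a := by
  have h1 : 0 < β * T := by positivity
  rw [th_eq_arctan ha hβ hβ1] at h
  have h2 : Real.arctan (2 * a * β / (1 - β ^ 2)) < Real.arctan (β * s) := by linarith
  have h3 := Real.arctan_strictMono.lt_iff_lt.1 h2
  have e : 2 * a * β / (1 - β ^ 2) = β * (2 * a / (1 - β ^ 2)) := by ring
  have hs : 2 * a / (1 - β ^ 2) < s := by
    rw [e] at h3
    exact lt_of_mul_lt_mul_left h3 hβ.le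
  refine ⟨hs, ?_⟩
  have h4 : 2 * a < 2 * a / (1 - β ^ 2) := by
    rw [lt_div_iff₀ (by linarith)]
    have : 0 < 2 * a * β ^ 2 := by positivity
    linarith
  have h5 : Real.arctan (β * (2 * a)) < Real.arctan (2 * a * β / (1 - β ^ 2)) := by
    apply Real.arctan_strictMono
    rw [e]
    exact mul_lt_mul_of_pos_left h4 hβ
  have h6 : Real.arctan (β * s) - Real.arctan (β * (2 * a)) ≤ β * s - β * (2 * a) :=
    sub_arctan_mono (mul_le_mul_of_nonneg_left (by linarith) hβ.le)
  have h7 : β * T < β * (s - 2 * a) := by linarith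
  exact lt_of_mul_lt_mul_left h7 hβ.le

theorem gg_pos {a α β s : ℝ} (ha : 0 < a) (hβ : 0 < β) (hβα : β < α) (hβ1 : β ^ 2 < 1)
    (hs : 2 * a / (1 - β ^ 2) < s) : 0 < gg a α β s := by
  have hα : 0 < α := hβ.trans hβα
  have h1 : 0 < 1 - β ^ 2 := by linarith
  have h0 : 0 < 2 * a / (1 - β ^ 2) := by positivity
  have m := gg_mono (a := a) hβ hβα (mem_Ici.2 h0.le) (mem_Ici.2 (h0.trans hs).le) hs
  refine lt_of_le_of_lt ?_ m
  unfold gg
  have e1 : β * (2 * a / (1 - β ^ 2)) = 2 * a * β / (1 - β ^ 2) := by ring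
  rw [e1, ← th_eq_arctan ha hβ hβ1, sub_self, mul_zero, zero_add]
  have e2 : α * (2 * a / (1 - β ^ 2)) = ((1 - β ^ 2) / (2 * a * α))⁻¹ := by
    rw [inv_div]; ring
  have p : 0 < (1 - β ^ 2) / (2 * a * α) := by positivity
  rw [e2, Real.arctan_inv_of_pos p, th]
  have : Real.arctan ((1 - α ^ 2) / (2 * a * α)) ≤ Real.arctan ((1 - β ^ 2) / (2 * a * α)) := by
    apply Real.arctan_strictMono.monotone
    apply div_le_div_of_nonneg_right _ (by positivity)
    nlinarith
  linarith

/-! ### numerical bounds -/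

theorem arccos_le {a b : ℝ} (ha : 0 < a) (hb : 0 < b) (hab : a ^ 2 + b ^ 2 = 1) (hlt : a < b) :
    Real.arccos a ≤ Real.pi / 4 + (b - a) / (b + a) := by
  have hτ : 0 < (b - a) / (b + a) := by
    apply div_pos <;> linarith
  by_cases hδ : Real.arccos a - Real.pi / 4 < 0
  · linarith
  push Not at hδ
  have ha1 : a < 1 := by nlinarith
  have h1 : Real.arccos a < Real.pi / 2 := by
    rw [Real.arccos_lt_pi_div_two]; exact ha
  have hpi := Real.pi_pos
  have ht := Real.le_tan hδ (by linarith)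
  have e : Real.tan (Real.arccos a - Real.pi / 4) = (b - a) / (b + a) := by
    rw [Real.tan_eq_sin_div_cos, Real.sin_sub, Real.cos_sub, Real.cos_arccos (by linarith) ha1.le,
      Real.sin_arccos, show 1 - a ^ 2 = b ^ 2 by linarith, Real.sqrt_sq hb.le,
      Real.cos_pi_div_four, Real.sin_pi_div_four]
    have h2 : Real.sqrt 2 / 2 ≠ 0 := by positivity
    have h3 : a * (Real.sqrt 2 / 2) + b * (Real.sqrt 2 / 2) ≠ 0 := by positivity
    have h4 : b + a ≠ 0 := by positivity
    rw [div_eq_div_iff h3 h4]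
    ring
  rw [e] at ht
  linarith

theorem expo {a b : ℝ} (ha : 0 < a) (hb : 0 < b) (hab : a ^ 2 + b ^ 2 = 1) (hlt : a < b) {τ : ℝ}
    (hτ : τ = (b - a) / (b + a)) :
    0 < τ ∧ τ < 1 ∧ a * ((Real.pi + Real.arccos a) / b) * (1 + τ) ≤
      (1 - τ) * (5 * Real.pi / 4 + τ) ∧ 2 - 4 * a ^ 2 ≤ 4 * τ := by
  have h := arccos_le ha hb hab hlt
  rw [← hτ] at h
  have hba : 0 < b + a := by linarith
  have τ0 : 0 < τ := by rw [hτ]; apply div_pos <;> linarith
  have τ1 : τ < 1 := by rw [hτ, div_lt_one hba]; linarith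
  have hm : τ * (b + a) = b - a := by rw [hτ]; field_simp
  refine ⟨τ0, τ1, ?_, ?_⟩
  · have e1 : (1 - τ) * b = (1 + τ) * a := by linear_combination -hm
    have e2 : a * ((Real.pi + Real.arccos a) / b) * (1 + τ) =
        (1 - τ) * (Real.pi + Real.arccos a) := by
      have hb' : b ≠ 0 := hb.ne'
      field_simp
      linear_combination (-(Real.pi + Real.arccos a)) * e1
    rw [e2]
    apply mul_le_mul_of_nonneg_left _ (by linarith)
    linarith
  · have e3 : 2 - 4 * a ^ 2 = 2 * τ * (b + a) ^ 2 := by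
      linear_combination (-2 : ℝ) * hab - 2 * (b + a) * hm
    have e4 : (b + a) ^ 2 ≤ 2 := by nlinarith [sq_nonneg (b - a)]
    rw [e3]
    nlinarith

theorem exp692 : Real.exp (6.92 : ℝ) < 1016 := by
  have h7 : Real.exp 7 < 1096.64 := by
    have : Real.exp 7 = Real.exp 1 ^ 7 := by rw [← Real.exp_nat_mul]; norm_num
    rw [this]
    calc Real.exp 1 ^ 7 < 2.7182818286 ^ 7 :=
        pow_lt_pow_left₀ Real.exp_one_lt_d9 (Real.exp_pos 1).le (by norm_num)
      _ < 1096.64 := by norm_num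
  have h : Real.exp (6.92 : ℝ) * Real.exp (0.08 : ℝ) = Real.exp 7 := by
    rw [← Real.exp_add]; norm_num
  have h2 := Real.add_one_le_exp (0.08 : ℝ)
  have h3 := Real.exp_pos (6.92 : ℝ)
  nlinarith

theorem exp52 : Real.exp (5.2 : ℝ) < 186 := by
  have h5 : Real.exp 5 < 148.42 := by
    have : Real.exp 5 = Real.exp 1 ^ 5 := by rw [← Real.exp_nat_mul]; norm_num
    rw [this]
    calc Real.exp 1 ^ 5 < 2.7182818286 ^ 5 :=
        pow_lt_pow_left₀ Real.exp_one_lt_d9 (Real.exp_pos 1).le (by norm_num)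
      _ < 148.42 := by norm_num
  have h : Real.exp (5.2 : ℝ) * Real.exp (-0.2 : ℝ) = Real.exp 5 := by
    rw [← Real.exp_add]; norm_num
  have h2 := Real.add_one_le_exp (-0.2 : ℝ)
  have h3 := Real.exp_pos (5.2 : ℝ)
  nlinarith

theorem num {a b c : ℝ} (ha : 0 < a) (hb : 0 < b) (hab : a ^ 2 + b ^ 2 = 1) (hc0 : 0 < c)
    (hc : 4 * a ^ 2 = 2 - c ^ 2) :
    c * Real.exp (a * ((Real.pi + Real.arccos a) / b)) < 6 * Real.pi ∧
    (4 / 5 ≤ c ^ 2 → c * Real.exp (a * ((Real.pi + Real.arccos a) / b)) < 5 * Real.pi) := by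
  have hlt : a < b := by
    have : a ^ 2 < b ^ 2 := by nlinarith [sq_pos_of_pos hc0]
    exact lt_of_pow_lt_pow_left₀ 2 hb.le this
  obtain ⟨τ, hτ⟩ : ∃ τ : ℝ, τ = (b - a) / (b + a) := ⟨_, rfl⟩
  obtain ⟨τ0, τ1, hE, hcτ⟩ := expo ha hb hab hlt hτ
  obtain ⟨X, hX⟩ : ∃ X : ℝ, X = a * ((Real.pi + Real.arccos a) / b) := ⟨_, rfl⟩
  rw [← hX] at hE ⊢
  have hpi1 := Real.pi_gt_d4
  have hpi2 := Real.pi_lt_d4
  have hp : 0 < c * Real.exp X := by positivity
  have sq : (c * Real.exp X) ^ 2 = c ^ 2 * Real.exp (2 * X) := by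
    rw [mul_pow, ← Real.exp_nat_mul]; push_cast; ring
  have hc2 : c ^ 2 ≤ 4 * τ := by linarith
  have P1 : (1 - τ) * (5 * Real.pi / 4 + τ) ≤ (1 - τ) * (3.92712 + τ) := by
    apply mul_le_mul_of_nonneg_left _ (by linarith)
    linarith
  have hτ1 : 0 < 1 + τ := by linarith
  -- the bound for `τ ≥ 1/5`
  have B : 1 / 5 ≤ τ → c * Real.exp X < 5 * Real.pi := by
    intro h
    have l : 4 * τ ≤ 6 / 5 * Real.exp (10 / 3 * τ - 1) := by
      have := Real.add_one_le_exp (10 / 3 * τ - 1)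
      linarith
    have hx : 10 / 3 * τ - 1 + 2 * X ≤ 5.2 := by
      have : (10 / 3 * τ - 1 + 2 * X) * (1 + τ) ≤ 5.2 * (1 + τ) := by
        nlinarith [mul_nonneg (sub_nonneg.2 h) (sub_nonneg.2 τ1.le)]
      exact le_of_mul_le_mul_right this hτ1
    have h1 : (c * Real.exp X) ^ 2 < (5 * Real.pi) ^ 2 := by
      rw [sq]
      calc c ^ 2 * Real.exp (2 * X) ≤ (6 / 5 * Real.exp (10 / 3 * τ - 1)) * Real.exp (2 * X) :=
            mul_le_mul_of_nonneg_right (hc2.trans l) (Real.exp_pos _).le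
        _ = 6 / 5 * Real.exp (10 / 3 * τ - 1 + 2 * X) := by rw [mul_assoc, ← Real.exp_add]
        _ ≤ 6 / 5 * Real.exp 5.2 := by
            apply mul_le_mul_of_nonneg_left (Real.exp_le_exp.2 hx) (by norm_num)
        _ < 6 / 5 * 186 := by
            apply mul_lt_mul_of_pos_left exp52 (by norm_num)
        _ < (5 * Real.pi) ^ 2 := by nlinarith
    exact lt_of_pow_lt_pow_left₀ 2 (by positivity) h1
  constructor
  · rcases le_total (1 / 5) τ with h | h
    · have := B h
      linarith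
    · have l : 4 * τ ≤ 1 / 3 * Real.exp (12 * τ - 1) := by
        have := Real.add_one_le_exp (12 * τ - 1)
        linarith
      have hx : 12 * τ - 1 + 2 * X ≤ 6.92 := by
        have : (12 * τ - 1 + 2 * X) * (1 + τ) ≤ 6.92 * (1 + τ) := by
          nlinarith [mul_nonneg (sub_nonneg.2 h) τ0.le]
        exact le_of_mul_le_mul_right this hτ1
      have h1 : (c * Real.exp X) ^ 2 < (6 * Real.pi) ^ 2 := by
        rw [sq]
        calc c ^ 2 * Real.exp (2 * X) ≤ (1 / 3 * Real.exp (12 * τ - 1)) * Real.exp (2 * X) :=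
              mul_le_mul_of_nonneg_right (hc2.trans l) (Real.exp_pos _).le
          _ = 1 / 3 * Real.exp (12 * τ - 1 + 2 * X) := by rw [mul_assoc, ← Real.exp_add]
          _ ≤ 1 / 3 * Real.exp 6.92 := by
              apply mul_le_mul_of_nonneg_left (Real.exp_le_exp.2 hx) (by norm_num)
          _ < 1 / 3 * 1016 := by
              apply mul_lt_mul_of_pos_left exp692 (by norm_num)
          _ < (6 * Real.pi) ^ 2 := by nlinarith
      exact lt_of_pow_lt_pow_left₀ 2 (by positivity) h1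
  · intro h
    exact B (by linarith)

theorem gg_lt {a b c α β s T : ℝ} (ha : 0 < a) (hb : 0 < b) (hab : a ^ 2 + b ^ 2 = 1)
    (hc0 : 0 < c) (hc : 4 * a ^ 2 = 2 - c ^ 2) (hβ : 0 < β) (hβα : β < α)
    (hsum : α ^ 2 + β ^ 2 = c ^ 2) (hs : 0 < s) (hT : 0 < T)
    (hTs : T < s - 2 * a) (h : β * T = Real.arctan (β * s) - th a β)
    (hout : s - 2 * a < Real.exp (a * ((Real.pi + Real.arccos a) / b))) :
    gg a α β s < 6 * Real.pi := by
  have hα : 0 < α := hβ.trans hβα
  obtain ⟨n1, n2⟩ := num ha hb hab hc0 hc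
  have hαc : α < c := by
    have : α ^ 2 < c ^ 2 := by nlinarith [sq_pos_of_pos hβ]
    exact lt_of_pow_lt_pow_left₀ 2 hc0.le this
  have hg : gg a α β s = α * T + th a α - Real.arctan (α * s) := by
    unfold gg
    rw [← h]
    field_simp
  have h1 : α * T < α * (s - 2 * a) := mul_lt_mul_of_pos_left hTs hα
  have h2 : α * (s - 2 * a) < c * Real.exp (a * ((Real.pi + Real.arccos a) / b)) := by
    have h0 : 0 < s - 2 * a := hT.trans hTs
    calc α * (s - 2 * a) < c * (s - 2 * a) := mul_lt_mul_of_pos_right hαc h0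
      _ < _ := mul_lt_mul_of_pos_left hout hc0
  rw [hg]
  have hpi := Real.pi_gt_d4
  rcases le_or_gt (2 * a) ((1 - α ^ 2) * s) with hc1 | hc1
  · have : th a α ≤ Real.arctan (α * s) := by
      have p : 0 < (α * s)⁻¹ := by positivity
      have e : Real.arctan (α * s) = Real.pi / 2 - Real.arctan (α * s)⁻¹ := by
        rw [← Real.arctan_inv_of_pos p, inv_inv]
      rw [e, th]
      have : Real.arctan (α * s)⁻¹ ≤ Real.arctan ((1 - α ^ 2) / (2 * a * α)) := by
        apply Real.arctan_strictMono.monotone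
        rw [inv_eq_one_div, div_le_div_iff₀ (by positivity) (by positivity)]
        nlinarith
      linarith
    linarith
  · have t1 := th_lt a α
    have t2 : 0 < Real.arctan (α * s) := Real.arctan_pos.2 (by positivity)
    rcases le_or_gt (4 / 5) (c ^ 2) with hc3 | hc3
    · have := n2 hc3
      linarith
    · have a1 : a < 1 := by nlinarith
      have α1 : α ^ 2 < 4 / 5 := by nlinarith [sq_pos_of_pos hβ]
      have α2 : α < 1 := by nlinarith
      have s1 : s < 10 * a := by nlinarith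
      have : α * (s - 2 * a) < 8 := by nlinarith
      linarith

end Q191.Beam
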